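import Pool.Agent.H456.Mat.Count

/-!
# Cocircuits of logarithmic size
-/

open Finset Module

open scoped Classical

namespace Pool.Agent.H456

variable {F : Type} [Field F]

/-- Greedy choice of a set that meets the supports of all members of a family. -/
theorem greedy {n γ : ℕ} (hn : 0 < n) (X : Finset (Fin n → F)) (hX : ∀ v ∈ X, γ ≤ #(spt v))
    (s : ℕ) : ∃ S : Finset (Fin n), #S ≤ s ∧
      n ^ s * #(X.filter fun v => ∀ i ∈ S, v i = 0) ≤ (n - γ) ^ s * #X := by
  induction s with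
  | zero => exact ⟨∅, by simp, by simp⟩
  | succ s ih =>
    obtain ⟨S, hS, hle⟩ := ih
    set Y := X.filter fun v => ∀ i ∈ S, v i = 0 with hY
    have hsum : γ * #Y ≤ ∑ i : Fin n, #(Y.filter fun v => v i ≠ 0) := by
      calc γ * #Y = ∑ _v ∈ Y, γ := by rw [sum_const, smul_eq_mul, mul_comm]
        _ ≤ ∑ v ∈ Y, #(spt v) := sum_le_sum fun v hv => hX v (mem_filter.1 hv).1
        _ = ∑ v ∈ Y, ∑ i : Fin n, if v i ≠ 0 then 1 else 0 := by
            apply sum_congr rfl
            intro v _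
            rw [← card_filter]
            congr 1
        _ = ∑ i : Fin n, ∑ v ∈ Y, if v i ≠ 0 then 1 else 0 := sum_comm
        _ = _ := by
            apply sum_congr rfl
            intro i _
            rw [← card_filter]
    obtain ⟨i, _, hi⟩ : ∃ i ∈ (univ : Finset (Fin n)),
        γ * #Y ≤ n * #(Y.filter fun v => v i ≠ 0) := by
      by_contra hall
      push Not at hall
      have h1 : ∑ i : Fin n, n * #(Y.filter fun v => v i ≠ 0) < ∑ _i : Fin n, γ * #Y :=
        sum_lt_sum_of_nonempty ⟨⟨0, hn⟩, mem_univ _⟩ fun i hi => hall i hi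
      rw [← mul_sum, sum_const, card_univ, Fintype.card_fin, smul_eq_mul] at h1
      have h2 := Nat.mul_le_mul_left n hsum
      omega
    refine ⟨insert i S, (card_insert_le _ _).trans (by omega), ?_⟩
    have h1 : X.filter (fun v => ∀ j ∈ insert i S, v j = 0) = Y.filter fun v => v i = 0 := by
      ext v
      rw [mem_filter, mem_filter, hY, mem_filter]
      simp only [mem_insert, forall_eq_or_imp]
      tauto
    have h2 : #(Y.filter fun v => v i = 0) + #(Y.filter fun v => v i ≠ 0) = #Y :=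
      card_filter_add_card_filter_not _
    have h3 : n * #(Y.filter fun v => v i = 0) ≤ (n - γ) * #Y := by
      rw [Nat.sub_mul]
      have h4 : n * #Y = n * #(Y.filter fun v => v i = 0) + n * #(Y.filter fun v => v i ≠ 0) := by
        rw [← h2]
        ring
      omega
    rw [h1]
    calc n ^ (s + 1) * #(Y.filter fun v => v i = 0)
        = n ^ s * (n * #(Y.filter fun v => v i = 0)) := by ring
      _ ≤ n ^ s * ((n - γ) * #Y) := Nat.mul_le_mul_left _ h3
      _ = (n - γ) * (n ^ s * #Y) := by ring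
      _ ≤ (n - γ) * ((n - γ) ^ s * #X) := Nat.mul_le_mul_left _ hle
      _ = (n - γ) ^ (s + 1) * #X := by ring

/-- A small set that meets the supports of all members of a family. -/
theorem exists_hit {n γ : ℕ} (hn : 0 < n) (h0 : 0 < γ) (hγn : γ ≤ n) (X : Finset (Fin n → F))
    (hX : ∀ v ∈ X, γ ≤ #(spt v)) {L : ℝ} (hL : Real.log (#X) ≤ L) (hL0 : 0 ≤ L) :
    ∃ S : Finset (Fin n), (#S : ℝ) * γ ≤ n * (L + 1) ∧ ∀ v ∈ X, ∃ i ∈ S, v i ≠ 0 := by
  have hn' : (0 : ℝ) < n := by exact_mod_cast hn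
  have hγ' : (0 : ℝ) < γ := by exact_mod_cast h0
  set s : ℕ := ⌊(n : ℝ) / γ * L⌋₊ + 1 with hs
  obtain ⟨S, hS, hle⟩ := greedy hn X hX s
  have hs1 : (n : ℝ) / γ * L < s := by
    rw [hs]
    push_cast
    exact Nat.lt_floor_add_one _
  have hs2 : (s : ℝ) ≤ (n : ℝ) / γ * L + 1 := by
    rw [hs]
    push_cast
    have := Nat.floor_le (show 0 ≤ (n : ℝ) / γ * L by positivity)
    linarith
  refine ⟨S, ?_, ?_⟩
  · have h1 : (#S : ℝ) ≤ s := by exact_mod_cast hS
    calc (#S : ℝ) * γ ≤ ((n : ℝ) / γ * L + 1) * γ := by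
          apply mul_le_mul_of_nonneg_right (h1.trans hs2) hγ'.le
      _ = n * L + γ := by field_simp
      _ ≤ n * L + n := by
          have : (γ : ℝ) ≤ n := by exact_mod_cast hγn
          linarith
      _ = n * (L + 1) := by ring
  · by_contra hall
    push Not at hall
    obtain ⟨v, hv, hv0⟩ := hall
    have h1 : 1 ≤ #(X.filter fun v => ∀ i ∈ S, v i = 0) :=
      card_pos.2 ⟨v, mem_filter.2 ⟨hv, hv0⟩⟩
    have h2 : n ^ s ≤ (n - γ) ^ s * #X := by
      calc n ^ s = n ^ s * 1 := (mul_one _).symm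
        _ ≤ n ^ s * #(X.filter fun v => ∀ i ∈ S, v i = 0) := Nat.mul_le_mul_left _ h1
        _ ≤ _ := hle
    have hXpos : (0 : ℝ) < #X := by exact_mod_cast card_pos.2 ⟨v, hv⟩
    have h3 : (n : ℝ) ^ s ≤ ((n : ℝ) - γ) ^ s * #X := by
      have := (Nat.cast_le (α := ℝ)).2 h2
      rw [Nat.cast_mul, Nat.cast_pow, Nat.cast_pow, Nat.cast_sub hγn] at this
      exact this
    have h4 : ((n : ℝ) - γ) ^ s ≤ (n : ℝ) ^ s * Real.exp (-((γ : ℝ) / n * s)) := by
      have h5 : (n : ℝ) - γ = n * (1 - γ / n) := by field_simp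
      have h6 : 0 ≤ 1 - (γ : ℝ) / n := by
        rw [sub_nonneg, div_le_one hn']
        exact_mod_cast hγn
      have h7 : 1 - (γ : ℝ) / n ≤ Real.exp (-((γ : ℝ) / n)) := by
        have := Real.add_one_le_exp (-((γ : ℝ) / n))
        linarith
      rw [h5, mul_pow]
      apply mul_le_mul_of_nonneg_left _ (by positivity)
      calc (1 - (γ : ℝ) / n) ^ s ≤ Real.exp (-((γ : ℝ) / n)) ^ s :=
            pow_le_pow_left₀ h6 h7 s
        _ = Real.exp (-((γ : ℝ) / n * s)) := by
            rw [← Real.exp_nat_mul]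
            congr 1
            ring
    have h8 : (#X : ℝ) ≤ Real.exp L := by
      rw [← Real.exp_log hXpos]
      exact Real.exp_le_exp.2 hL
    have h9 : Real.exp (-((γ : ℝ) / n * s)) * Real.exp L < 1 := by
      rw [← Real.exp_add, Real.exp_lt_one_iff]
      have : L < (γ : ℝ) / n * s := by
        have h10 := mul_lt_mul_of_pos_left hs1 (show 0 < (γ : ℝ) / n by positivity)
        have h11 : (γ : ℝ) / n * ((n : ℝ) / γ * L) = L := by field_simp
        linarith
      linarith
    have h12 : (n : ℝ) ^ s ≤ (n : ℝ) ^ s * (Real.exp (-((γ : ℝ) / n * s)) * Real.exp L) := by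
      calc (n : ℝ) ^ s ≤ ((n : ℝ) - γ) ^ s * #X := h3
        _ ≤ (n : ℝ) ^ s * Real.exp (-((γ : ℝ) / n * s)) * Real.exp L := by
            apply mul_le_mul h4 h8 hXpos.le (by positivity)
        _ = _ := by ring
    have h13 : (0 : ℝ) < (n : ℝ) ^ s := by positivity
    nlinarith

theorem finrank_van_union {n : ℕ} (U : Submodule F (Fin n → F)) (S T : Finset (Fin n)) :
    finrank F (van U S) ≤ finrank F (van U (S ∪ T)) + #T := by
  induction T using Finset.induction with
  | empty => rw [union_empty, card_empty, add_zero]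
  | insert e T he ih =>
    rw [card_insert_of_notMem he, union_insert]
    by_cases h : ∃ u ∈ van U (S ∪ T), u e ≠ 0
    · obtain ⟨u, hu, hue⟩ := h
      have := finrank_van_insert hu hue
      omega
    · push Not at h
      have h1 : van U (insert e (S ∪ T)) = van U (S ∪ T) := by
        apply le_antisymm
        · intro x hx
          exact ⟨hx.1, fun c hc => hx.2 c (mem_insert_of_mem hc)⟩
        · intro x hx
          refine ⟨hx.1, fun c hc => ?_⟩
          rcases mem_insert.1 hc with rfl | hc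
          · exact h x hx
          · exact hx.2 c hc
      rw [h1]
      omega

theorem log_core [Fintype F] {n : ℕ} {U : Submodule F (Fin n → F)} {K : ℕ}
    (hcount : ∀ (S : Finset (Fin n)) (γ : ℕ), 0 < γ → (∀ v ∈ van U S, v ≠ 0 → γ ≤ #(spt v)) →
      #(univ.filter fun u : Fin n → F => u ∈ van U S ∧ #(spt u) ≤ 2 * γ) ≤
        (Fintype.card F ^ 2 * (n + 1)) ^ K) (j : ℕ) :
    ∀ (S : Finset (Fin n)) (γ : ℕ), 0 < γ → n < γ * 2 ^ j →
      (∀ v ∈ van U S, v ≠ 0 → γ ≤ #(spt v)) →
      (finrank F (van U S) : ℝ) * γ ≤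
        2 * n * (K * Real.log (Fintype.card F ^ 2 * (n + 1)) + 1) := by
  set L : ℝ := K * Real.log (Fintype.card F ^ 2 * (n + 1)) with hL
  have hq1 : (1 : ℝ) ≤ Fintype.card F := by exact_mod_cast Fintype.card_pos
  have hbase : (1 : ℝ) ≤ (Fintype.card F : ℝ) ^ 2 * (n + 1) := by
    have h1 : (1 : ℝ) ≤ (Fintype.card F : ℝ) ^ 2 := one_le_pow₀ hq1
    have h2 : (1 : ℝ) ≤ (n : ℝ) + 1 := by
      have : (0 : ℝ) ≤ n := Nat.cast_nonneg n
      linarith
    nlinarith
  have hL0 : 0 ≤ L := mul_nonneg (Nat.cast_nonneg K) (Real.log_nonneg hbase)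
  have hbot : ∀ (S : Finset (Fin n)) (γ : ℕ), n < γ →
      (∀ v ∈ van U S, v ≠ 0 → γ ≤ #(spt v)) → (finrank F (van U S) : ℝ) * γ ≤ 2 * n * (L + 1) := by
    intro S γ hnγ hmin
    have h1 : van U S = ⊥ := by
      rw [eq_bot_iff]
      intro v hv
      by_contra hv0
      have h2 := hmin v hv hv0
      have h3 : #(spt v) ≤ n := (card_le_univ _).trans (by rw [Fintype.card_fin])
      omega
    rw [h1, finrank_bot]
    push_cast
    rw [zero_mul]
    positivity
  induction j with
  | zero =>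
    intro S γ _ hnγ hmin
    rw [pow_zero, mul_one] at hnγ
    exact hbot S γ hnγ hmin
  | succ j ih =>
    intro S γ hγ hnγ hmin
    rcases Nat.lt_or_ge n γ with hlt | hge
    · exact hbot S γ hlt hmin
    set X := univ.filter fun u : Fin n → F => u ∈ van U S ∧ u ≠ 0 ∧ #(spt u) ≤ 2 * γ with hX
    have hXc : #X ≤ (Fintype.card F ^ 2 * (n + 1)) ^ K := by
      refine (card_le_card ?_).trans (hcount S γ hγ hmin)
      intro u hu
      rw [hX, mem_filter] at hu
      exact mem_filter.2 ⟨mem_univ _, hu.2.1, hu.2.2.2⟩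
    have hlog : Real.log (#X) ≤ L := by
      rcases Nat.eq_zero_or_pos #X with h0 | h0
      · rw [h0]
        simpa using hL0
      · have h1 : (#X : ℝ) ≤ ((Fintype.card F : ℝ) ^ 2 * (n + 1)) ^ K := by
          have := (Nat.cast_le (α := ℝ)).2 hXc
          push_cast at this
          exact this
        calc Real.log (#X) ≤ Real.log (((Fintype.card F : ℝ) ^ 2 * (n + 1)) ^ K) :=
              Real.log_le_log (by exact_mod_cast h0) h1
          _ = L := by rw [Real.log_pow]
    obtain ⟨T, hT, hhit⟩ := exists_hit (by omega) hγ hge X (fun v hv => by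
      rw [hX, mem_filter] at hv
      exact hmin v hv.2.1 hv.2.2.1) hlog hL0
    have h1 := ih (S ∪ T) (2 * γ) (by omega) (by rw [pow_succ] at hnγ; nlinarith) (by
      intro v hv hv0
      by_contra hlt
      push Not at hlt
      have hvS : v ∈ van U S := ⟨hv.1, fun c hc => hv.2 c (mem_union_left _ hc)⟩
      obtain ⟨i, hi, hvi⟩ := hhit v (by
        rw [hX, mem_filter]
        exact ⟨mem_univ _, hvS, hv0, hlt.le⟩)
      exact hvi (hv.2 i (mem_union_right _ hi)))
    have h2 := finrank_van_union U S T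
    have h3 : (finrank F (van U S) : ℝ) ≤ finrank F (van U (S ∪ T)) + #T := by
      exact_mod_cast h2
    push_cast at h1
    have hγ' : (0 : ℝ) < γ := by exact_mod_cast hγ
    nlinarith

theorem confined_natMat {m n₀ : ℕ} (A : Fin m → Fin n₀ → ℕ) :
    Confined ⊥ (natMat A : Submodule F (Fin n₀ → F)) :=
  ⟨m, Matrix.of fun j e => (A j e : F), fun _ _ => natCast_mem _ _, rfl⟩

theorem exists_natMat [Finite F] {n : ℕ} {V : Submodule F (Fin n → F)}
    (hV : Confined ⊥ V) : ∃ A : Fin n → Fin n → ℕ, V = natMat A := by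
  obtain ⟨A, hA⟩ := exists_natMat_dual hV
  obtain ⟨A', hA'⟩ := exists_natMat_dual (V := dual V) (by rw [hA]; exact confined_natMat A)
  exact ⟨A', by rw [← hA', dual_dual]⟩

/-- **Logarithmic bound.** -/
theorem log_bound [Fintype F] {P : MClass F} (hP : MinorClosed P)
    (h : ∃ (n : ℕ) (V : Submodule F (Fin n → F)), Confined ⊥ V ∧ ¬ P n V) :
    ∃ C : ℕ, ∀ (n : ℕ) (U : Submodule F (Fin n → F)), P n U → U ≠ ⊥ →
      ∃ v ∈ U, v ≠ 0 ∧ (#(spt v) : ℝ) * finrank F U ≤ C * n * Real.log (n + 1) := by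
  obtain ⟨C₀, N, hN, hpow⟩ := power_saving hP h
  obtain ⟨n₁, V, hV, hPV⟩ := h
  obtain ⟨A, hA⟩ := exists_natMat hV
  obtain ⟨N₁, hbd⟩ := bd_of_omit hP A (by rw [← hA]; exact hPV)
  obtain ⟨K, hK⟩ := count hP hN hpow hbd
  set q : ℝ := ((Fintype.card F : ℕ) : ℝ) with hq
  have hq1 : (1 : ℝ) ≤ q := by
    rw [hq]
    exact_mod_cast Fintype.card_pos
  have hlq : 0 ≤ Real.log q := Real.log_nonneg hq1
  obtain ⟨C, hC⟩ := exists_nat_ge ((4 * K * Real.log q + 2) / Real.log 2 + 2 * K)
  refine ⟨C, fun n U hU hne => ?_⟩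
  obtain ⟨v₀, hv₀, hv₀0⟩ := (Submodule.ne_bot_iff U).1 hne
  obtain ⟨γ, ⟨v, hv, hv0, hγ⟩, hmin⟩ := Nat.findX (p := fun γ => ∃ v ∈ U, v ≠ 0 ∧ #(spt v) = γ)
    ⟨_, v₀, hv₀, hv₀0, rfl⟩
  have hmin' : ∀ u ∈ U, u ≠ 0 → γ ≤ #(spt u) := by
    intro u hu hu0
    by_contra hlt'
    push Not at hlt'
    exact hmin _ hlt' ⟨u, hu, hu0, rfl⟩
  refine ⟨v, hv, hv0, ?_⟩
  rw [hγ]
  have hγ0 : 0 < γ := by
    rw [← hγ, card_pos]
    by_contra hemp
    rw [not_nonempty_iff_eq_empty] at hemp
    apply hv0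
    funext i
    by_contra hi
    have : i ∈ spt v := mem_spt.2 hi
    rw [hemp] at this
    exact absurd this (notMem_empty i)
  have hγn : γ ≤ n := by
    rw [← hγ]
    exact (card_le_univ _).trans (by rw [Fintype.card_fin])
  have hn1 : (1 : ℝ) ≤ n := by exact_mod_cast (show 1 ≤ n by omega)
  have h1 := log_core (hK n U hU) n ∅ γ hγ0 (by
    have : n < 2 ^ n := Nat.lt_two_pow_self
    nlinarith) (by
    rw [van_empty]
    exact hmin')
  rw [van_empty] at h1
  have hl2 : 0 < Real.log 2 := Real.log_pos one_lt_two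
  have hln : Real.log 2 ≤ Real.log (n + 1) := Real.log_le_log (by norm_num) (by linarith)
  have h2 : Real.log ((Fintype.card F : ℝ) ^ 2 * (n + 1)) = 2 * Real.log q + Real.log (n + 1) := by
    rw [Real.log_mul (by positivity) (by positivity), Real.log_pow]
    push_cast
    rfl
  rw [h2] at h1
  have h3 : 2 * (K * (2 * Real.log q + Real.log (n + 1)) + 1) ≤ C * Real.log (n + 1) := by
    have h4 : (4 * K * Real.log q + 2) / Real.log 2 * Real.log (n + 1) ≥
        4 * K * Real.log q + 2 := by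
      rw [ge_iff_le, div_mul_eq_mul_div, le_div_iff₀ hl2]
      apply mul_le_mul_of_nonneg_left hln
      positivity
    have h5 := mul_le_mul_of_nonneg_right hC (show 0 ≤ Real.log ((n : ℝ) + 1) by linarith)
    nlinarith
  calc (γ : ℝ) * finrank F U = finrank F U * γ := mul_comm _ _
    _ ≤ 2 * n * (K * (2 * Real.log q + Real.log (n + 1)) + 1) := h1
    _ = n * (2 * (K * (2 * Real.log q + Real.log (n + 1)) + 1)) := by ring
    _ ≤ n * (C * Real.log (n + 1)) := mul_le_mul_of_nonneg_left h3 (by linarith)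
    _ = C * n * Real.log (n + 1) := by ring

end Pool.Agent.H456
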