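import Pool.Agent.H456.Mat.Defs

/-!
# Bases, duals and small circuits of represented matroids
-/

open Finset Module

namespace Pool.Agent.H456

variable {F : Type} [Field F]

/-- `B` is a basis of the represented matroid `U`, and `w b` for `b ∈ B` are the vectors of `U`
dual to it. -/
structure IsBase {n : ℕ} (U : Submodule F (Fin n → F)) (B : Finset (Fin n))
    (w : Fin n → Fin n → F) : Prop where
  mem : ∀ b ∈ B, w b ∈ U
  one : ∀ b ∈ B, w b b = 1
  zero : ∀ b ∈ B, ∀ b' ∈ B, b' ≠ b → w b b' = 0
  ext : ∀ u ∈ U, (∀ b ∈ B, u b = 0) → u = 0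

variable {n : ℕ} {U : Submodule F (Fin n → F)} {B : Finset (Fin n)} {w : Fin n → Fin n → F}

theorem exists_base (U : Submodule F (Fin n → F)) : ∃ B w, IsBase U B w := by
  classical
  let Q : Finset (Fin n) → Prop := fun B => ∃ w : Fin n → Fin n → F, (∀ b ∈ B, w b ∈ U) ∧
    (∀ b ∈ B, w b b = 1) ∧ ∀ b ∈ B, ∀ b' ∈ B, b' ≠ b → w b b' = 0
  have h0 : Q ∅ := ⟨fun _ _ => 0, by simp, by simp, by simp⟩
  obtain ⟨B, hB, hmax⟩ := (univ.filter Q).exists_max_image card ⟨∅, by simp [h0]⟩
  obtain ⟨w, h1, h2, h3⟩ := (mem_filter.1 hB).2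
  refine ⟨B, w, h1, h2, h3, fun u hu hz => ?_⟩
  by_contra hne
  obtain ⟨e, he⟩ : ∃ e, u e ≠ 0 := by
    by_contra hall
    push Not at hall
    exact hne (funext hall)
  have heB : e ∉ B := fun h => he (hz e h)
  have hQ : Q (insert e B) := by
    refine ⟨fun b => if b = e then (u e)⁻¹ • u else w b - (w b e) • (u e)⁻¹ • u, ?_, ?_, ?_⟩
    · intro b hb
      by_cases hbe : b = e
      · simp only [hbe, if_true]
        exact U.smul_mem _ hu
      · simp only [hbe, if_false]
        exact U.sub_mem (h1 b (by simpa [hbe] using hb)) (U.smul_mem _ (U.smul_mem _ hu))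
    · intro b hb
      by_cases hbe : b = e
      · subst hbe
        simp [he]
      · have hbB : b ∈ B := by simpa [hbe] using hb
        simp [hbe, h2 b hbB, hz b hbB]
    · intro b hb b' hb' hne'
      by_cases hbe : b = e
      · subst hbe
        have hbB : b' ∈ B := by simpa [hne'] using hb'
        simp [hz b' hbB]
      · have hbB : b ∈ B := by simpa [hbe] using hb
        by_cases hbe' : b' = e
        · subst hbe'
          simp [hbe, he]
        · have hbB' : b' ∈ B := by simpa [hbe'] using hb'
          simp [hbe, hz b' hbB', h3 b hbB b' hbB' hne']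
  have := hmax _ (by simp [hQ] : insert e B ∈ univ.filter Q)
  rw [card_insert_of_notMem heB] at this
  omega

namespace IsBase

theorem apply_eq (h : IsBase U B w) {b b' : Fin n} (hb : b ∈ B) (hb' : b' ∈ B) :
    w b b' = if b' = b then 1 else 0 := by
  split_ifs with hbb
  · rw [hbb]; exact h.one b hb
  · exact h.zero b hb b' hb' hbb

theorem sum_apply (h : IsBase U B w) (c : Fin n → F) {b : Fin n} (hb : b ∈ B) :
    (∑ b' ∈ B, c b' • w b') b = c b := by
  rw [Finset.sum_apply, Finset.sum_eq_single b]
  · simp [h.one b hb]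
  · intro b' hb' hne
    simp [h.zero b' hb' b hb (Ne.symm hne)]
  · intro h'
    exact absurd hb h'

theorem sum_mem (h : IsBase U B w) (c : Fin n → F) : ∑ b ∈ B, c b • w b ∈ U :=
  U.sum_mem fun b hb => U.smul_mem _ (h.mem b hb)

theorem eq_sum (h : IsBase U B w) {u : Fin n → F} (hu : u ∈ U) : u = ∑ b ∈ B, u b • w b := by
  have := h.ext (u - ∑ b ∈ B, u b • w b) (U.sub_mem hu (h.sum_mem u)) (by
    intro b hb
    rw [Pi.sub_apply, h.sum_apply u hb, sub_self])
  exact sub_eq_zero.1 this

theorem apply_sum (h : IsBase U B w) {u : Fin n → F} (hu : u ∈ U) (e : Fin n) :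
    u e = ∑ b ∈ B, u b * w b e := by
  conv_lhs => rw [h.eq_sum hu]
  simp [Finset.sum_apply]

theorem finrank_eq (h : IsBase U B w) : finrank F U = #B := by
  let f : U →ₗ[F] (B → F) := (LinearMap.funLeft F F (fun x : B => (x : Fin n))) ∘ₗ U.subtype
  have hinj : Function.Injective f := by
    rw [injective_iff_map_eq_zero]
    intro u hu
    have := h.ext u.1 u.2 (fun b hb => congrFun hu ⟨b, hb⟩)
    exact Subtype.ext this
  have hsurj : Function.Surjective f := by
    intro c
    classical
    refine ⟨⟨∑ b ∈ B, (fun b => if hb : b ∈ B then c ⟨b, hb⟩ else 0) b • w b, h.sum_mem _⟩, ?_⟩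
    funext b
    have := h.sum_apply (fun b => if hb : b ∈ B then c ⟨b, hb⟩ else 0) b.2
    change (∑ b ∈ B, (fun b => if hb : b ∈ B then c ⟨b, hb⟩ else 0) b • w b) b.1 = c b
    rw [this]
    simp
  have := (LinearEquiv.ofBijective f ⟨hinj, hsurj⟩).finrank_eq
  rw [this, finrank_fintype_fun_eq_card, Fintype.card_coe]

/-- The dual base. -/
theorem dual (h : IsBase U B w) :
    IsBase (dual U) Bᶜ (fun e i => if i = e then 1 else if i ∈ B then - w i e else 0) where
  mem := by
    intro e he u hu
    rw [mem_compl] at he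
    have h1 : ∀ i, (if i = e then (1 : F) else if i ∈ B then - w i e else 0) * u i =
        (if i = e then u i else 0) - (if i ∈ B then u i * w i e else 0) := by
      intro i
      by_cases h1 : i = e
      · subst h1
        simp [he]
      · by_cases h2 : i ∈ B
        · simp [h1, h2, mul_comm]
        · simp [h1, h2]
    rw [sum_congr rfl (fun i _ => h1 i), sum_sub_distrib, sum_ite_eq' univ e, if_pos (mem_univ _),
      ← sum_filter, filter_mem_eq_inter, univ_inter, ← h.apply_sum hu e, sub_self]
  one := by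
    intro b _
    simp
  zero := by
    intro b hb b' hb' hne
    rw [mem_compl] at hb'
    simp [hne, hb']
  ext := by
    intro x hx hz
    funext b
    by_cases hb : b ∈ B
    · have h1 := hx (w b) (h.mem b hb)
      rw [sum_eq_single b, h.one b hb, mul_one] at h1
      · exact h1
      · intro i _ hi
        by_cases hiB : i ∈ B
        · rw [h.zero b hb i hiB hi, mul_zero]
        · rw [hz i (mem_compl.2 hiB), zero_mul]
      · intro h'
        exact absurd (mem_univ _) h'
    · exact hz b (mem_compl.2 hb)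

end IsBase

theorem le_dual_dual (U : Submodule F (Fin n → F)) : U ≤ dual (dual U) := by
  intro u hu v hv
  have := hv u hu
  rw [← this]
  exact sum_congr rfl fun i _ => mul_comm _ _

theorem dual_dual (U : Submodule F (Fin n → F)) : dual (dual U) = U := by
  apply le_antisymm _ (le_dual_dual U)
  obtain ⟨B, w, h⟩ := exists_base U
  have h2 := h.dual.dual
  rw [compl_compl] at h2
  intro x hx
  have := h2.ext (x - ∑ b ∈ B, x b • w b)
    (Submodule.sub_mem _ hx (le_dual_dual U (h.sum_mem x))) (by
      intro b hb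
      rw [Pi.sub_apply, h.sum_apply x hb, sub_self])
  rw [sub_eq_zero.1 this]
  exact h.sum_mem x

theorem finrank_dual (U : Submodule F (Fin n → F)) : finrank F U + finrank F (dual U) = n := by
  obtain ⟨B, w, h⟩ := exists_base U
  rw [h.finrank_eq, h.dual.finrank_eq, card_add_card_compl, Fintype.card_fin]

theorem finrank_le (U : Submodule F (Fin n → F)) : finrank F U ≤ n := by
  have := finrank_dual U
  omega

/-! ### Small circuits and cocircuits -/

/-- The support of a vector. -/
noncomputable def spt (v : Fin n → F) : Finset (Fin n) := by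
  classical exact {i | v i ≠ 0}

theorem mem_spt {v : Fin n → F} {i : Fin n} : i ∈ spt v ↔ v i ≠ 0 := by
  classical
  simp [spt]

theorem rk_univ (U : Submodule F (Fin n → F)) : rk U univ = finrank F U := by
  unfold rk
  apply LinearEquiv.finrank_eq
  symm
  apply Submodule.equivMapOfInjective
  intro a b hab
  funext i
  exact congrFun hab ⟨i, mem_univ i⟩

theorem rk_le (U : Submodule F (Fin n → F)) (X : Finset (Fin n)) : rk U X ≤ finrank F U :=
  Submodule.finrank_map_le _ _

theorem rk_le_card (U : Submodule F (Fin n → F)) (X : Finset (Fin n)) : rk U X ≤ #X := by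
  have := Submodule.finrank_le (U.map (restr X))
  rwa [finrank_fintype_fun_eq_card, Fintype.card_coe] at this

theorem rk_compl_spt_lt {v : Fin n → F} (hv : v ∈ U) (hv0 : v ≠ 0) :
    rk U (spt v)ᶜ < finrank F U := by
  have h1 := LinearMap.finrank_range_add_finrank_ker ((restr (F := F) (spt v)ᶜ).domRestrict U)
  have h2 : LinearMap.range ((restr (F := F) (spt v)ᶜ).domRestrict U) =
      U.map (restr (spt v)ᶜ) := by
    rw [LinearMap.domRestrict, LinearMap.range_comp, Submodule.range_subtype]
  rw [h2] at h1
  have h3 : 0 < finrank F (LinearMap.ker ((restr (F := F) (spt v)ᶜ).domRestrict U)) := by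
    refine (Module.finrank_pos_iff_exists_ne_zero (R := F)
      (M := LinearMap.ker ((restr (F := F) (spt v)ᶜ).domRestrict U))).2 ⟨⟨⟨v, hv⟩, ?_⟩, ?_⟩
    · rw [LinearMap.mem_ker]
      funext i
      have := i.2
      rw [mem_compl, mem_spt, not_not] at this
      exact this
    · intro h
      apply hv0
      exact congrArg (fun x => (x.1.1 : Fin n → F)) h
  unfold rk
  omega

theorem rk_spt_dual_lt {v : Fin n → F} (hv : v ∈ dual U) (hv0 : v ≠ 0) :
    rk U (spt v) < #(spt v) := by
  obtain ⟨e, he⟩ : ∃ e, v e ≠ 0 := by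
    by_contra hall
    push Not at hall
    exact hv0 (funext hall)
  by_contra hlt
  have h1 : rk U (spt v) = #(spt v) := le_antisymm (rk_le_card _ _) (not_lt.1 hlt)
  have h2 : U.map (restr (spt v)) = ⊤ := by
    apply Submodule.eq_top_of_finrank_eq
    rw [finrank_fintype_fun_eq_card, Fintype.card_coe]
    exact h1
  classical
  have h3 : (Pi.single ⟨e, mem_spt.2 he⟩ 1 : spt v → F) ∈ U.map (restr (spt v)) := by
    rw [h2]; exact Submodule.mem_top
  obtain ⟨u, hu, hue⟩ := h3
  have h4 := hv u hu
  rw [sum_eq_single e] at h4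
  · have h5 := congrFun hue ⟨e, mem_spt.2 he⟩
    simp only [restr, LinearMap.funLeft_apply, Pi.single_eq_same] at h5
    rw [h5, mul_one] at h4
    exact he h4
  · intro i _ hi
    by_cases hiv : v i = 0
    · rw [hiv, zero_mul]
    · have h5 := congrFun hue ⟨i, mem_spt.2 hiv⟩
      simp only [restr, LinearMap.funLeft_apply] at h5
      rw [h5, Pi.single_eq_of_ne, mul_zero]
      intro h
      exact hi (congrArg Subtype.val h)
  · intro h
    exact absurd (mem_univ _) h

/-- In a `k`-connected represented matroid with at least `2k` elements every nonzero vector of the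
row space has at least `k` nonzero entries. -/
theorem KConn.le_spt {k : ℕ} (hk : KConn k U) (hn : 2 * k ≤ n) {v : Fin n → F} (hv : v ∈ U)
    (hv0 : v ≠ 0) : k ≤ #(spt v) := by
  by_contra hlt
  push Not at hlt
  have h1 := hk #(spt v) hlt (spt v) le_rfl (by rw [card_compl, Fintype.card_fin]; omega)
  have h2 := rk_compl_spt_lt hv hv0
  have h3 := rk_le_card U (spt v)
  rw [rk_univ] at h1
  omega

/-- In a `k`-connected represented matroid with at least `2k` elements every nonzero vector of the
dual has at least `k` nonzero entries. -/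
theorem KConn.le_spt_dual {k : ℕ} (hk : KConn k U) (hn : 2 * k ≤ n) {v : Fin n → F}
    (hv : v ∈ dual U) (hv0 : v ≠ 0) : k ≤ #(spt v) := by
  by_contra hlt
  push Not at hlt
  have h1 := hk #(spt v) hlt (spt v) le_rfl (by rw [card_compl, Fintype.card_fin]; omega)
  have h2 := rk_spt_dual_lt hv hv0
  have h3 := rk_le U (spt v)ᶜ
  rw [rk_univ] at h1
  omega

theorem rowSpace_of {m : ℕ} (r : Fin m → Fin n → F) :
    rowSpace (Matrix.of r) = Submodule.span F (Set.range r) := rfl

theorem IsBase.span_rows (h : IsBase U B w) :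
    Submodule.span F (Set.range fun i => if i ∈ B then w i else 0) = U := by
  apply le_antisymm
  · rw [Submodule.span_le]
    rintro x ⟨i, rfl⟩
    by_cases hi : i ∈ B
    · simp only [hi, if_true]
      exact h.mem i hi
    · simp only [hi, if_false]
      exact U.zero_mem
  · intro u hu
    rw [h.eq_sum hu]
    apply Submodule.sum_mem
    intro b hb
    apply Submodule.smul_mem
    apply Submodule.subset_span
    exact ⟨b, by simp [hb]⟩

theorem perturb_bot (U : Submodule F (Fin n → F)) : Perturb n ⊥ U := by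
  obtain ⟨B, w, h⟩ := exists_base U
  refine ⟨n, 0, Matrix.of fun i => if i ∈ B then w i else 0, ?_, ?_, ?_⟩
  · rw [rowSpace, Submodule.span_eq_bot]
    rintro x ⟨i, rfl⟩
    rfl
  · exact Matrix.rank_le_height _
  · rw [zero_add, rowSpace_of]
    exact h.span_rows

theorem isFrame_bot : IsFrame (⊥ : Submodule F (Fin n → F)) := by
  refine ⟨0, 0, fun j => ?_, ?_⟩
  · have : {i : Fin 0 | (0 : Matrix (Fin 0) (Fin n) F) i j ≠ 0} = ∅ := Set.eq_empty_of_isEmpty _
    rw [this, Set.ncard_empty]
    omega
  · rw [rowSpace, Submodule.span_eq_bot]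
    rintro x ⟨i, rfl⟩
    exact i.elim0

theorem Perturb.mono {s t : ℕ} (h : s ≤ t) {U₁ U₂ : Submodule F (Fin n → F)}
    (hp : Perturb s U₁ U₂) : Perturb t U₁ U₂ := by
  obtain ⟨m, A, P, h1, h2, h3⟩ := hp
  exact ⟨m, A, P, h1, h2.trans h, h3⟩

/-- If all nonempty members of a class have a small circuit or a small cocircuit, then Q1 holds
for the class. -/
theorem q1For_of_small (P : MClass F) (K : ℕ)
    (h : ∀ (n : ℕ) (U : Submodule F (Fin n → F)), P n U → 0 < n →
      ∃ v : Fin n → F, v ≠ 0 ∧ (v ∈ U ∨ v ∈ dual U) ∧ #(spt v) ≤ K) : Q1For P := by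
  refine ⟨K + 1, 2 * (K + 1), fun n U hU hk => ⟨⊥, ?_, Or.inl isFrame_bot⟩⟩
  rcases Nat.lt_or_ge n (2 * (K + 1)) with hn | hn
  · exact (perturb_bot U).mono hn.le
  · exfalso
    obtain ⟨v, hv0, hv, hle⟩ := h n U hU (by omega)
    rcases hv with hv | hv
    · have := hk.le_spt hn hv hv0
      omega
    · have := hk.le_spt_dual hn hv hv0
      omega

end Pool.Agent.H456
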