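import Pool.Agent.H456.Mat.CubeMinor
import Pool.Agent.H456.GW.Main

/-!
# From classes of represented matroids to classes of finite sets of vectors
-/

open Finset Module

open scoped Classical

namespace Pool.Agent.H456

open Pack GW

variable {F : Type} [Field F]

/-- The represented matroid of a family of vectors. -/
def rowsp {V : Type} [AddCommGroup V] [Module F V] {m : ℕ} (v : Fin m → V) :
    Submodule F (Fin m → F) :=
  LinearMap.range (LinearMap.pi (fun e => Dual.eval F V (v e)) : Dual F V →ₗ[F] (Fin m → F))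

theorem mem_rowsp {V : Type} [AddCommGroup V] [Module F V] {m : ℕ} {v : Fin m → V}
    {x : Fin m → F} : x ∈ rowsp v ↔ ∃ φ : V →ₗ[F] F, ∀ e, φ (v e) = x e := by
  rw [rowsp, LinearMap.mem_range]
  constructor
  · rintro ⟨φ, rfl⟩
    exact ⟨φ, fun e => rfl⟩
  · rintro ⟨φ, h⟩
    exact ⟨φ, funext h⟩

/-- A functional that vanishes on the kernel of `π` factors through `π`. -/
theorem exists_factor {V V' : Type} [AddCommGroup V] [Module F V] [AddCommGroup V'] [Module F V']
    (π : V →ₗ[F] V') (φ : V →ₗ[F] F) (h : LinearMap.ker π ≤ LinearMap.ker φ) :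
    ∃ ψ : V' →ₗ[F] F, ∀ x, ψ (π x) = φ x := by
  have h1 : φ ∈ LinearMap.range π.dualMap := by
    rw [LinearMap.range_dualMap_eq_dualAnnihilator_ker, Submodule.mem_dualAnnihilator]
    intro w hw
    exact LinearMap.mem_ker.1 (h hw)
  obtain ⟨ψ, hψ⟩ := h1
  exact ⟨ψ, fun x => by rw [← hψ]; rfl⟩

/-- Contraction of a family of vectors by a linear map. -/
theorem exists_contract {P : MClass F} (hP : MinorClosed P) {V V' : Type} [AddCommGroup V]
    [Module F V] [AddCommGroup V'] [Module F V'] {m : ℕ} {v : Fin m → V} (hv : P m (rowsp v))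
    (π : V →ₗ[F] V') (hπ : LinearMap.ker π ≤ Submodule.span F (v '' {e | π (v e) = 0})) :
    ∃ (m' : ℕ) (ι : Fin m' ↪ Fin m), (∀ e, π (v e) ≠ 0 → ∃ i, ι i = e) ∧
      P m' (rowsp fun i => π (v (ι i))) := by
  set C : Finset (Fin m) := univ.filter fun e => π (v e) = 0 with hC
  refine ⟨#Cᶜ, (Cᶜ.orderEmbOfFin rfl).toEmbedding, ?_, ?_⟩
  · intro e he
    have : (e : Fin m) ∈ Set.range (Cᶜ.orderEmbOfFin rfl) := by
      rw [range_orderEmbOfFin, mem_coe, mem_compl, hC, mem_filter]
      exact fun h => he h.2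
    exact this
  · apply hP _ _ _ _ hv
    refine ⟨(Cᶜ.orderEmbOfFin rfl).toEmbedding, C, ?_, ?_⟩
    · intro i
      have := Cᶜ.orderEmbOfFin_mem rfl i
      rwa [mem_compl] at this
    · intro x
      rw [mem_rowsp]
      constructor
      · rintro ⟨ψ, hψ⟩
        refine ⟨fun e => ψ (π (v e)), mem_rowsp.2 ⟨ψ ∘ₗ π, fun e => rfl⟩, ?_, hψ⟩
        intro e he
        rw [hC, mem_filter] at he
        change ψ (π (v e)) = 0
        rw [he.2, map_zero]
      · rintro ⟨u, hu, huC, hux⟩
        obtain ⟨φ, hφ⟩ := mem_rowsp.1 hu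
        obtain ⟨ψ, hψ⟩ := exists_factor π φ (hπ.trans (by
          rw [Submodule.span_le]
          rintro _ ⟨e, he, rfl⟩
          rw [SetLike.mem_coe, LinearMap.mem_ker, hφ]
          exact huC e (by rw [hC, mem_filter]; exact ⟨mem_univ _, he⟩)))
        refine ⟨ψ, fun i => ?_⟩
        rw [hψ, hφ]
        exact hux i

/-- Restriction of a family of vectors. -/
theorem restrict_mem {P : MClass F} (hP : MinorClosed P) {V : Type} [AddCommGroup V]
    [Module F V] {m m' : ℕ} {v : Fin m → V} (hv : P m (rowsp v)) (ι : Fin m' ↪ Fin m) :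
    P m' (rowsp fun i => v (ι i)) := by
  apply hP _ _ _ _ hv
  refine ⟨ι, ∅, by simp, ?_⟩
  intro x
  rw [mem_rowsp]
  constructor
  · rintro ⟨φ, hφ⟩
    exact ⟨fun e => φ (v e), mem_rowsp.2 ⟨φ, fun e => rfl⟩, by simp, hφ⟩
  · rintro ⟨u, hu, _, hux⟩
    obtain ⟨φ, hφ⟩ := mem_rowsp.1 hu
    exact ⟨φ, fun i => by rw [hφ]; exact hux i⟩

/-- The class of finite sets of vectors attached to a class of represented matroids. -/
def toCls (P : MClass F) (hP : MinorClosed P) : Cls F where
  mem V _ _ E := ∃ (m : ℕ) (v : Fin m → V), P m (rowsp v) ∧ ∀ x ∈ E, x ≠ 0 → ∃ e, v e = x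
  sub V _ _ E E' := by
    rintro ⟨m, v, hv, h⟩ hE
    exact ⟨m, v, hv, fun x hx => h x (hE hx)⟩
  con V V' _ _ _ _ π E E' := by
    rintro ⟨m, v, hv, h⟩ hπ hE'
    obtain ⟨m', ι, hι, hm'⟩ := exists_contract hP hv π (by
      refine hπ.trans ?_
      rw [Submodule.span_le]
      rintro x ⟨hx, hx0⟩
      by_cases hxz : x = 0
      · rw [hxz]
        exact Submodule.zero_mem _
      · obtain ⟨e, rfl⟩ := h x hx hxz
        exact Submodule.subset_span ⟨e, hx0, rfl⟩)
    refine ⟨m', _, hm', ?_⟩
    intro y hy hy0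
    obtain ⟨x, hx, rfl⟩ := (hE' y).1 hy
    have hx0 : x ≠ 0 := by
      rintro rfl
      exact hy0 (map_zero π)
    obtain ⟨e, rfl⟩ := h x hx hx0
    obtain ⟨i, rfl⟩ := hι e hy0
    exact ⟨i, rfl⟩

theorem finrank_rowsp_le {V : Type} [AddCommGroup V] [Module F V] {m : ℕ} (v : Fin m → V)
    (S : Submodule F V) (hS : FiniteDimensional F S) (hv : ∀ e, v e ∈ S) :
    finrank F (rowsp (F := F) v) ≤ finrank F S := by
  obtain ⟨B, w, h⟩ := exists_base (rowsp (F := F) v)
  rw [h.finrank_eq]
  have hφ : ∀ b : B, ∃ φ : V →ₗ[F] F, ∀ e, φ (v e) = w b e :=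
    fun b => mem_rowsp.1 (h.mem b b.2)
  choose φ hφ using hφ
  have hli : LinearIndependent F (fun b : B => (⟨v b, hv b⟩ : S)) := by
    rw [Fintype.linearIndependent_iff]
    intro a ha i
    have h1 : ∑ b : B, a b • v b = 0 := by
      have := congrArg Subtype.val ha
      simpa using this
    have h2 := congrArg (φ i) h1
    rw [map_sum, map_zero, sum_eq_single i] at h2
    · rwa [map_smul, hφ, h.one _ i.2, smul_eq_mul, mul_one] at h2
    · intro b _ hb
      rw [map_smul, hφ, h.zero _ i.2 _ b.2 (fun h' => hb (Subtype.ext h')), smul_zero]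
    · intro h'
      exact absurd (mem_univ _) h'
  have := hli.fintype_card_le_finrank
  rwa [Fintype.card_coe] at this

theorem sep_rowsp {V : Type} [AddCommGroup V] [Module F V] {m : ℕ} {v : Fin m → V}
    (hv : Function.Injective v) : Sep (rowsp (F := F) v) := by
  intro e e' hne
  have h1 : v e - v e' ≠ 0 := sub_ne_zero.2 fun h => hne (hv h)
  obtain ⟨φ, hφ⟩ : ∃ φ : V →ₗ[F] F, φ (v e - v e') ≠ 0 := by
    by_contra hall
    push Not at hall
    exact h1 ((Module.forall_dual_apply_eq_zero_iff F _).1 hall)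
  refine ⟨fun e => φ (v e), mem_rowsp.2 ⟨φ, fun e => rfl⟩, ?_⟩
  intro h
  apply hφ
  rw [map_sub]
  exact sub_eq_zero.2 h

variable [Fintype F]

/-- A bound on the number of distinct vectors gives a bound on cones. -/
theorem card_cone_le {P : MClass F} (hP : MinorClosed P) {g : ℕ → ℕ} (hg : Monotone g)
    (hbd : Bd P g) {V : Type} [AddCommGroup V] [Module F V] {E : Finset V}
    (hE : (toCls P hP).mem V E) : #(cone F E) ≤ Fintype.card F * (g (rnk F E) + 1) := by
  obtain ⟨m, v, hv, h⟩ := hE
  have hch : ∀ x : V, ∃ e : Option (Fin m), x ∈ E.erase 0 → ∃ i, e = some i ∧ v i = x := by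
    intro x
    by_cases hx : x ∈ E.erase 0
    · rw [mem_erase] at hx
      obtain ⟨e, he⟩ := h x hx.2 hx.1
      exact ⟨some e, fun _ => ⟨e, rfl, he⟩⟩
    · exact ⟨none, fun h => absurd h hx⟩
  choose f hf using hch
  set J : Finset (Fin m) := univ.filter fun i => ∃ x ∈ E.erase 0, f x = some i with hJ
  have hJv : ∀ i ∈ J, v i ∈ E.erase 0 ∧ f (v i) = some i := by
    intro i hi
    obtain ⟨x, hx, hxi⟩ := (mem_filter.1 hi).2
    obtain ⟨j, hj, hjx⟩ := hf x hx
    rw [hxi, Option.some.injEq] at hj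
    rw [hj, hjx]
    exact ⟨hx, by rw [hxi, hj]⟩
  have hcard : #(E.erase 0) ≤ #J := by
    have h1 : E.erase 0 ⊆ J.image v := by
      intro x hx
      obtain ⟨i, hi, hix⟩ := hf x hx
      rw [mem_image]
      exact ⟨i, mem_filter.2 ⟨mem_univ _, x, hx, hi⟩, hix⟩
    exact (card_le_card h1).trans card_image_le
  let ι : Fin #J ↪ Fin m := (J.orderEmbOfFin rfl).toEmbedding
  have hιJ : ∀ i, ι i ∈ J := fun i => J.orderEmbOfFin_mem rfl i
  have h1 := restrict_mem hP hv ι
  have h2 : Function.Injective fun i => v (ι i) := by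
    intro i i' hii
    have h3 := (hJv _ (hιJ i)).2
    have h4 := (hJv _ (hιJ i')).2
    simp only at hii
    rw [hii, h4, Option.some.injEq] at h3
    exact (ι.injective h3).symm
  have h3 := hbd _ _ h1 (sep_rowsp h2)
  have h4 : finrank F (rowsp (F := F) fun i => v (ι i)) ≤ rnk F E :=
    finrank_rowsp_le _ (Submodule.span F (E : Set V)) inferInstance fun i =>
      Submodule.subset_span (mem_coe.2 (mem_erase.1 (hJv _ (hιJ i)).1).2)
  have h5 : #J ≤ g (rnk F E) := h3.trans (hg h4)
  have h6 : #E ≤ #(E.erase 0) + 1 := by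
    have := pred_card_le_card_erase (s := E) (a := 0)
    omega
  calc #(cone F E) ≤ #((univ : Finset F) ×ˢ E) := card_image_le
    _ = Fintype.card F * #E := by rw [card_product, card_univ]
    _ ≤ Fintype.card F * (g (rnk F E) + 1) := Nat.mul_le_mul_left _ (by omega)

/-- Linear growth of cones gives linear growth of represented matroids. -/
theorem bd_of_cone {P : MClass F} (hP : MinorClosed P) {κ : ℕ}
    (h : ∀ (V : Type) [AddCommGroup V] [Module F V] (E : Finset V), (toCls P hP).mem V E →
      #(cone F E) ≤ κ * (rnk F E + 1)) : Bd P fun r => κ * (r + 1) := by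
  intro n U hU hsep
  obtain ⟨B, w, hB⟩ := exists_base U
  let v : Fin n → (B → F) := fun e b => w b e
  have hrow : rowsp v = U := by
    ext x
    rw [mem_rowsp]
    constructor
    · rintro ⟨φ, hφ⟩
      have : x = ∑ b : B, φ (Pi.single b 1) • w b := by
        funext e
        rw [← hφ e, Finset.sum_apply]
        have h1 : v e = ∑ b : B, v e b • (Pi.single b 1 : B → F) := by
          funext b
          simp [Pi.single_apply]
        conv_lhs => rw [h1]
        rw [map_sum]
        apply sum_congr rfl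
        intro b _
        rw [map_smul, smul_eq_mul, Pi.smul_apply, smul_eq_mul, mul_comm]
      rw [this]
      exact U.sum_mem fun b _ => U.smul_mem _ (hB.mem b b.2)
    · intro hx
      refine ⟨∑ b : B, x b • LinearMap.proj b, fun e => ?_⟩
      rw [hB.apply_sum hx e, ← sum_coe_sort B]
      simp [v]
  have hinj : Function.Injective v := by
    intro e e' hee
    by_contra hne
    obtain ⟨u, hu, hue⟩ := hsep e e' hne
    apply hue
    rw [hB.apply_sum hu e, hB.apply_sum hu e']
    apply sum_congr rfl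
    intro b hb
    have := congrFun hee ⟨b, hb⟩
    simp only [v] at this
    rw [this]
  have h1 := h (B → F) (univ.image v) ⟨n, v, by rw [hrow]; exact hU, by
    intro x hx _
    obtain ⟨e, _, he⟩ := mem_image.1 hx
    exact ⟨e, he⟩⟩
  have h2 : n ≤ #(cone F (univ.image v)) := by
    have h3 := card_le_card (subset_cone (F := F) (univ.image v))
    rw [card_image_of_injective _ hinj, card_univ, Fintype.card_fin] at h3
    exact h3
  have h3 : rnk F (univ.image v) ≤ finrank F U := by
    rw [hB.finrank_eq]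
    have := Submodule.finrank_le (Submodule.span F ((univ.image v : Finset _) : Set (B → F)))
    rwa [finrank_fintype_fun_eq_card, Fintype.card_coe] at this
  exact h2.trans (h1.trans (Nat.mul_le_mul_left _ (by omega)))

end Pool.Agent.H456
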