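import Pool.Agent.H456.Mat.Power
import Pool.Agent.H456.Mat.Sparse

/-!
# Counting vectors of nearly minimum weight
-/

open Finset Module

open scoped Classical

namespace Pool.Agent.H456

open Pack

variable {F : Type} [Field F]

/-- Contract `C` and keep the elements `a i`. -/
theorem van_map_mem {P : MClass F} (hP : MinorClosed P) {n : ℕ} {U : Submodule F (Fin n → F)}
    (hU : P n U) (C : Finset (Fin n)) {m : ℕ} (a : Fin m ↪ Fin n) (ha : ∀ i, a i ∉ C) :
    P m ((van U C).map (LinearMap.funLeft F F a)) := by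
  apply hP _ _ _ _ hU
  refine ⟨a, C, ha, fun v => ?_⟩
  constructor
  · rintro ⟨u, hu, rfl⟩
    exact ⟨u, hu.1, hu.2, fun i => rfl⟩
  · rintro ⟨u, hu, hu0, huv⟩
    exact ⟨u, ⟨hu, hu0⟩, funext huv⟩

/-- Codes of small length relative to their minimum weight have bounded dimension. -/
theorem finrank_le_of_supp {P : MClass F} (hP : MinorClosed P) {C N : ℕ}
    (hpow : ∀ (n : ℕ) (U : Submodule F (Fin n → F)), P n U →
      U ≠ ⊥ → ∃ v ∈ U, v ≠ 0 ∧ #(spt v) ^ N * finrank F U ≤ C * n ^ N)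
    {n : ℕ} {U : Submodule F (Fin n → F)} (hU : P n U) (X : Finset (Fin n)) {γ s : ℕ}
    (hγ : 0 < γ) (hmin : ∀ v ∈ van U Xᶜ, v ≠ 0 → γ ≤ #(spt v)) (hX : #X ≤ s * γ) :
    finrank F (van U Xᶜ) ≤ C * s ^ N := by
  by_cases hne : van U Xᶜ = ⊥
  · rw [hne, finrank_bot]
    exact Nat.zero_le _
  let ι : Fin #X ↪ Fin n := (X.orderEmbOfFin rfl).toEmbedding
  have hιX : ∀ i, ι i ∉ Xᶜ := fun i => by
    rw [mem_compl, not_not]
    exact X.orderEmbOfFin_mem rfl i
  have hιs : ∀ e ∈ X, ∃ i, ι i = e := by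
    intro e he
    have : (e : Fin n) ∈ Set.range (X.orderEmbOfFin rfl) := by
      rw [range_orderEmbOfFin]
      exact he
    exact this
  let f : (Fin n → F) →ₗ[F] (Fin #X → F) := LinearMap.funLeft F F ι
  have hinj : ∀ u ∈ van U Xᶜ, f u = 0 → u = 0 := by
    intro u hu hf
    funext e
    by_cases he : e ∈ X
    · obtain ⟨i, rfl⟩ := hιs e he
      exact congrFun hf i
    · exact hu.2 e (mem_compl.2 he)
  have hPW := van_map_mem hP hU Xᶜ ι hιX
  set W := (van U Xᶜ).map f with hW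
  have hfin : finrank F W = finrank F (van U Xᶜ) := by
    have hfi : Function.Injective (f.domRestrict (van U Xᶜ)) := by
      rw [injective_iff_map_eq_zero]
      intro u hu
      exact Subtype.ext (hinj u.1 u.2 hu)
    have h1 := LinearMap.finrank_range_of_inj hfi
    rw [LinearMap.domRestrict, LinearMap.range_comp, Submodule.range_subtype] at h1
    exact h1
  have hWne : W ≠ ⊥ := by
    obtain ⟨u, hu, hu0⟩ := (Submodule.ne_bot_iff _).1 hne
    rw [Submodule.ne_bot_iff]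
    exact ⟨f u, ⟨u, hu, rfl⟩, fun h => hu0 (hinj u hu h)⟩
  obtain ⟨w, ⟨u, hu, rfl⟩, hw0, hle⟩ := hpow _ W hPW hWne
  have hu0 : u ≠ 0 := fun h => hw0 (by rw [h, map_zero])
  have hspt : #(spt u) ≤ #(spt (f u)) := by
    have : spt u ⊆ (spt (f u)).map ι := by
      intro e he
      rw [mem_spt] at he
      have heX : e ∈ X := by
        by_contra h
        exact he (hu.2 e (mem_compl.2 h))
      obtain ⟨i, rfl⟩ := hιs e heX
      rw [mem_map]
      exact ⟨i, mem_spt.2 he, rfl⟩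
    exact (card_le_card this).trans (card_map _).le
  have h1 := (hmin u hu hu0).trans hspt
  have h2 : γ ^ N * finrank F (van U Xᶜ) ≤ γ ^ N * (C * s ^ N) := by
    calc γ ^ N * finrank F (van U Xᶜ) ≤ #(spt (f u)) ^ N * finrank F W := by
          rw [hfin]
          exact Nat.mul_le_mul_right _ (Nat.pow_le_pow_left h1 N)
      _ ≤ C * #X ^ N := hle
      _ ≤ C * (s * γ) ^ N := Nat.mul_le_mul_left _ (Nat.pow_le_pow_left hX N)
      _ = γ ^ N * (C * s ^ N) := by rw [mul_pow]; ring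
  exact Nat.le_of_mul_le_mul_left h2 (Nat.pow_pos hγ)

/-- The number of vectors of weight at most twice the minimum is polynomial. -/
theorem count [Fintype F] {P : MClass F} (hP : MinorClosed P) {C N N₁ : ℕ} (hN : 0 < N)
    (hpow : ∀ (n : ℕ) (U : Submodule F (Fin n → F)), P n U →
      U ≠ ⊥ → ∃ v ∈ U, v ≠ 0 ∧ #(spt v) ^ N * finrank F U ≤ C * n ^ N)
    (hbd : Bd P fun r => (Fintype.card F ^ 2 * (r + 1)) ^ N₁) :
    ∃ K : ℕ, ∀ (n : ℕ) (U : Submodule F (Fin n → F)), P n U → ∀ (S : Finset (Fin n)) (γ : ℕ),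
      0 < γ → (∀ v ∈ van U S, v ≠ 0 → γ ≤ #(spt v)) →
      #(univ.filter fun u : Fin n → F => u ∈ van U S ∧ #(spt u) ≤ 2 * γ) ≤
        (Fintype.card F ^ 2 * (n + 1)) ^ K := by
  set q := Fintype.card F with hq
  have hq1 : 0 < q := Fintype.card_pos
  obtain ⟨D, hD, hlt⟩ := exists_exp_gt (4 * (q ^ 2 * (C + 1))) (N * N₁)
  set m := D + 1 with hm
  -- the polynomial bound
  have hkey : (q ^ 2 * (C * (2 * (m + 2)) ^ N + 1)) ^ N₁ < 2 ^ m := by
    refine lt_of_le_of_lt ?_ hlt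
    have e1 : q ^ 2 * (C * (2 * (m + 2)) ^ N + 1) ≤ (4 * (q ^ 2 * (C + 1)) * (D + 1 + 1)) ^ N := by
      have e2 : 1 ≤ (2 * (m + 2)) ^ N := Nat.one_le_pow _ _ (by omega)
      calc q ^ 2 * (C * (2 * (m + 2)) ^ N + 1)
          ≤ q ^ 2 * (C * (2 * (m + 2)) ^ N + (2 * (m + 2)) ^ N) :=
            Nat.mul_le_mul_left _ (Nat.add_le_add_left e2 _)
        _ = (q ^ 2 * (C + 1)) * (2 * (m + 2)) ^ N := by ring
        _ ≤ (q ^ 2 * (C + 1)) ^ N * (2 * (m + 2)) ^ N :=
            Nat.mul_le_mul_right _ (Nat.le_self_pow hN.ne' _)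
        _ = ((q ^ 2 * (C + 1)) * (2 * (m + 2))) ^ N := (mul_pow _ _ _).symm
        _ ≤ (4 * (q ^ 2 * (C + 1)) * (D + 1 + 1)) ^ N := by
            apply Nat.pow_le_pow_left
            rw [hm]
            calc (q ^ 2 * (C + 1)) * (2 * (D + 1 + 2)) ≤ (q ^ 2 * (C + 1)) * (4 * (D + 1 + 1)) :=
                  Nat.mul_le_mul_left _ (by omega)
              _ = 4 * (q ^ 2 * (C + 1)) * (D + 1 + 1) := by ring
    calc (q ^ 2 * (C * (2 * (m + 2)) ^ N + 1)) ^ N₁
        ≤ ((4 * (q ^ 2 * (C + 1)) * (D + 1 + 1)) ^ N) ^ N₁ := Nat.pow_le_pow_left e1 _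
      _ = (4 * (q ^ 2 * (C + 1)) * (D + 1 + 1)) ^ (N * N₁) := (pow_mul _ _ _).symm
      _ ≤ (4 * (q ^ 2 * (C + 1)) * (D + 1 + 1)) ^ (N * N₁) + 1 := Nat.le_succ _
      _ ≤ _ := Nat.le_mul_of_pos_left _ (by positivity)
  -- the index set of the rows
  set k := 2 ^ (m + 2) with hk
  have hk1 : 1 ≤ k := Nat.one_le_two_pow
  refine ⟨q ^ 2 * k + 1, fun n U hU S γ hγ hmin => ?_⟩
  by_contra hgt
  push Not at hgt
  obtain ⟨I, hI, hIc, f, g, hcube⟩ := exists_cube (univ : Finset (Fin n)) (q ^ 2 * k + 1)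
    (univ.filter fun u : Fin n → F => u ∈ van U S ∧ #(spt u) ≤ 2 * γ)
    (fun x _ y _ hxy => funext fun i => hxy i (mem_univ i)) (by
      rw [card_univ, Fintype.card_fin]
      exact hgt)
  obtain ⟨α, β, I', hI', hI'c, hcube'⟩ := exists_const_cube (N := k) hcube (by
    rw [hIc]; exact Nat.lt_succ_self _)
  have hαβ : α ≠ β := by
    obtain ⟨i, hi⟩ : I'.Nonempty := card_pos.1 (by omega)
    exact hcube'.1 i hi
  obtain ⟨ρ⟩ : Nonempty (Finset (Fin m ⊕ Bool) ↪ I') := by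
    apply Function.Embedding.nonempty_of_card_le
    rw [Fintype.card_coe, Fintype.card_finset, Fintype.card_sum, Fintype.card_fin,
      Fintype.card_bool]
    exact hI'c.le
  -- the rows
  have hrow : ∀ j : Fin m ⊕ Bool, ∃ u : Fin n → F, (u ∈ van U S ∧ #(spt u) ≤ 2 * γ) ∧
      ∀ T : Finset (Fin m ⊕ Bool), u (ρ T) = if j ∈ T then α else β := by
    intro j
    obtain ⟨u, hu, h1, h2⟩ := hcube'.2 ((univ.filter fun T : Finset (Fin m ⊕ Bool) => j ∈ T).image
      fun T => (ρ T : Fin n)) (by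
        intro i hi
        obtain ⟨T, _, rfl⟩ := mem_image.1 hi
        exact (ρ T).2)
    refine ⟨u, (mem_filter.1 hu).2, fun T => ?_⟩
    split_ifs with hT
    · exact h1 _ (mem_image_of_mem _ (mem_filter.2 ⟨mem_univ _, hT⟩))
    · apply h2 _ (ρ T).2
      intro hmem
      obtain ⟨T', hT', hTT⟩ := mem_image.1 hmem
      exact hT ((ρ.injective (Subtype.ext hTT)) ▸ (mem_filter.1 hT').2)
  choose u hu huT using hrow
  set X : Finset (Fin n) := univ.biUnion fun j => spt (u j) with hX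
  have hXS : ∀ e ∈ S, e ∈ Xᶜ := by
    intro e he
    rw [mem_compl, hX, mem_biUnion]
    rintro ⟨j, _, hj⟩
    exact (mem_spt.1 hj) ((hu j).1.2 e he)
  have hsub : ∀ v ∈ van U Xᶜ, v ∈ van U S := fun v hv => ⟨hv.1, fun e he => hv.2 e (hXS e he)⟩
  have huX : ∀ j, u j ∈ van U Xᶜ := by
    intro j
    refine ⟨(hu j).1.1, fun e he => ?_⟩
    by_contra h
    exact (mem_compl.1 he) (mem_biUnion.2 ⟨j, mem_univ _, mem_spt.2 h⟩)
  have hXc : #X ≤ (2 * (m + 2)) * γ := by
    calc #X ≤ ∑ j : Fin m ⊕ Bool, #(spt (u j)) := card_biUnion_le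
      _ ≤ ∑ _j : Fin m ⊕ Bool, 2 * γ := sum_le_sum fun j _ => (hu j).2
      _ = (2 * (m + 2)) * γ := by
        rw [sum_const, card_univ, Fintype.card_sum, Fintype.card_fin, Fintype.card_bool,
          smul_eq_mul]
        ring
  have hrk := finrank_le_of_supp hP hpow hU X hγ (fun v hv hv0 => hmin v (hsub v hv) hv0) hXc
  -- the columns
  let e₀ : Fin (2 ^ m) ≃ Finset (Fin m) := (Fintype.equivFinOfCardEq (by
    rw [Fintype.card_finset, Fintype.card_fin])).symm
  have hcX : ∀ T : Finset (Fin m), (ρ (T.disjSum {true}) : Fin n) ∉ Xᶜ := by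
    intro T hT
    rw [mem_compl, hX, mem_biUnion] at hT
    apply hT
    have h1 := huT (Sum.inr true) (T.disjSum {true})
    have h2 := huT (Sum.inr false) (T.disjSum {true})
    rw [if_pos (by simp)] at h1
    rw [if_neg (by simp)] at h2
    by_cases h0 : α = 0
    · refine ⟨Sum.inr false, mem_univ _, mem_spt.2 ?_⟩
      rw [h2]
      exact fun h => hαβ (h0.trans h.symm)
    · exact ⟨Sum.inr true, mem_univ _, mem_spt.2 (by rw [h1]; exact h0)⟩
  let a : Fin (2 ^ m) ↪ Fin n := ⟨fun i => ρ ((e₀ i).disjSum {true}), by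
    intro i i' hii
    have h1 := ρ.injective (Subtype.ext hii)
    apply e₀.injective
    ext x
    have h2 : Sum.inl x ∈ (e₀ i).disjSum {true} ↔ Sum.inl x ∈ (e₀ i').disjSum {true} := by
      rw [h1]
    simpa using h2⟩
  have hPW := van_map_mem hP hU Xᶜ a (fun i => hcX (e₀ i))
  have hsep : Sep ((van U Xᶜ).map (LinearMap.funLeft F F a)) := by
    intro i i' hne
    have h1 : e₀ i ≠ e₀ i' := fun h => hne (e₀.injective h)
    obtain ⟨x, hx⟩ : ∃ x, ¬ (x ∈ e₀ i ↔ x ∈ e₀ i') := by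
      by_contra hall
      push Not at hall
      exact h1 (Finset.ext hall)
    refine ⟨_, ⟨u (Sum.inl x), huX _, rfl⟩, ?_⟩
    change u (Sum.inl x) (ρ ((e₀ i).disjSum {true})) ≠ u (Sum.inl x) (ρ ((e₀ i').disjSum {true}))
    rw [huT, huT]
    by_cases h2 : x ∈ e₀ i
    · have h3 : x ∉ e₀ i' := fun h => hx ⟨fun _ => h, fun _ => h2⟩
      rw [if_pos (by simpa using h2), if_neg (by simpa using h3)]
      exact hαβ
    · have h3 : x ∈ e₀ i' := by
        by_contra h
        exact hx ⟨fun h' => absurd h' h2, fun h' => absurd h' h⟩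
      rw [if_neg (by simpa using h2), if_pos (by simpa using h3)]
      exact hαβ.symm
  have h1 := hbd _ _ hPW hsep
  have h2 : finrank F ((van U Xᶜ).map (LinearMap.funLeft F F a)) ≤ C * (2 * (m + 2)) ^ N :=
    (Submodule.finrank_map_le _ _).trans hrk
  have h3 : (q ^ 2 * (finrank F ((van U Xᶜ).map (LinearMap.funLeft F F a)) + 1)) ^ N₁ ≤
      (q ^ 2 * (C * (2 * (m + 2)) ^ N + 1)) ^ N₁ :=
    Nat.pow_le_pow_left (Nat.mul_le_mul_left _ (by omega)) _
  simp only at h1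
  omega

end Pool.Agent.H456
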