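import Pool.Agent.H456.Mat.Row
import Pool.Agent.H456.Pack.Cube

/-!
# Cubes give all matroids over the prime field as minors
-/

open Finset Module

namespace Pool.Agent.H456

open Pack

variable {F : Type} [Field F]

/-- The represented matroid of a matrix with natural entries. -/
def natMat {m n₀ : ℕ} (A : Fin m → Fin n₀ → ℕ) : Submodule F (Fin n₀ → F) :=
  rowSpace (Matrix.of fun j e => (A j e : F))

/-- The index set used to produce a given matrix. -/
abbrev KK (m L n₀ : ℕ) : Type := (Fin m × Bool × Fin L) ⊕ (Option (Fin n₀) × Bool)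

/-- The set of indices that produces the column `e` of the matrix `A`. -/
def TT {m n₀ : ℕ} (L : ℕ) (A : Fin m → Fin n₀ → ℕ) (e : Fin n₀) : Finset (KK m L n₀) :=
  (univ.filter fun p : Fin m × Bool × Fin L => p.2.1 = true ∧ (p.2.2 : ℕ) < A p.1 e).disjSum
    (univ.filter fun p : Option (Fin n₀) × Bool => p.1 = some e)

theorem mem_TT_inr {m n₀ L : ℕ} {A : Fin m → Fin n₀ → ℕ} {e : Fin n₀} {o : Option (Fin n₀)}
    {s : Bool} : (Sum.inr (o, s) : KK m L n₀) ∈ TT L A e ↔ o = some e := by
  simp [TT]

theorem sum_TT {m n₀ L : ℕ} {A : Fin m → Fin n₀ → ℕ} (hA : ∀ j e, A j e ≤ L)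
    (μ : KK m L n₀ → F) (d : Fin m → F) (h1 : ∀ p, μ (Sum.inr p) = 0)
    (h2 : ∀ j l, μ (Sum.inl (j, true, l)) = d j) (e : Fin n₀) :
    ∑ k ∈ TT L A e, μ k = ∑ j, (A j e : F) * d j := by
  rw [TT, sum_disjSum, sum_filter, sum_congr rfl fun p _ => h1 p, sum_const_zero, add_zero,
    Fintype.sum_prod_type]
  apply sum_congr rfl
  intro j _
  rw [Fintype.sum_prod_type, Fintype.sum_bool]
  simp only [true_and, Bool.false_eq_true, false_and, if_false, sum_const_zero,
    add_zero, h2]
  rw [← sum_filter, sum_const, nsmul_eq_mul, Fin.card_filter_val_lt, min_eq_right (hA j e)]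

variable {n : ℕ} {U : Submodule F (Fin n → F)} {B : Finset (Fin n)} {w : Fin n → Fin n → F}

theorem cube_minor (h : IsBase U B w) {m n₀ L : ℕ} (hL : 0 < L) (A : Fin m → Fin n₀ → ℕ)
    (hA : ∀ j e, A j e ≤ L) {α β : F} (hαβ : α ≠ β) (ρ : KK m L n₀ → Fin n)
    (hρ : Function.Injective ρ) (hρB : ∀ k, ρ k ∈ B) (κ : Finset (KK m L n₀) → Fin n)
    (hκ : ∀ S k, w (ρ k) (κ S) = if k ∈ S then α else β) :
    IsMinor (natMat A : Submodule F (Fin n₀ → F)) U := by
  classical
  have hγ : α - β ≠ 0 := sub_ne_zero.2 hαβ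
  have hκinj : ∀ S S', κ S = κ S' → S = S' := by
    intro S S' hSS
    ext k
    have h1 := hκ S k
    have h2 := hκ S' k
    rw [hSS, h2] at h1
    by_cases h3 : k ∈ S <;> by_cases h4 : k ∈ S' <;> simp_all
  have hTinj : ∀ e e', TT L A e = TT L A e' → e = e' := by
    intro e e' hee
    have : (Sum.inr (some e, true) : KK m L n₀) ∈ TT L A e' := by
      rw [← hee, mem_TT_inr]
    rw [mem_TT_inr] at this
    exact Option.some_injective _ this
  -- the general formula
  have hform : ∀ μ : KK m L n₀ → F, ∀ S, ∑ k, μ k * w (ρ k) (κ S) =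
      β * ∑ k, μ k + (α - β) * ∑ k ∈ S, μ k := by
    intro μ S
    have : ∀ k, μ k * w (ρ k) (κ S) = β * μ k + (α - β) * (if k ∈ S then μ k else 0) := by
      intro k
      rw [hκ]
      split_ifs <;> ring
    rw [sum_congr rfl fun k _ => this k, sum_add_distrib, ← mul_sum, ← mul_sum, ← sum_filter,
      filter_mem_eq_inter, univ_inter]
  let C : Finset (Fin n) := (B \ univ.image ρ) ∪ ({κ ∅} ∪
    ((univ.image fun p : Option (Fin n₀) × Bool => κ {Sum.inr p}) ∪
    (univ.image fun p : Fin m × Fin L × Fin L =>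
      κ {Sum.inl (p.1, true, p.2.1), Sum.inl (p.1, false, p.2.2)})))
  have hC1 : ∀ b ∈ B, (∀ k, ρ k ≠ b) → b ∈ C := by
    intro b hb hk
    apply mem_union_left
    rw [mem_sdiff, mem_image]
    exact ⟨hb, fun ⟨k, _, hk'⟩ => hk k hk'⟩
  have hC2 : κ ∅ ∈ C := by
    simp [C]
  have hC3 : ∀ p, κ {Sum.inr p} ∈ C := by
    intro p
    simp only [C, mem_union, mem_image, mem_univ, true_and]
    exact Or.inr (Or.inr (Or.inl ⟨p, rfl⟩))
  have hC4 : ∀ j l l', κ {Sum.inl (j, true, l), Sum.inl (j, false, l')} ∈ C := by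
    intro j l l'
    simp only [C, mem_union, mem_image, mem_univ, true_and]
    exact Or.inr (Or.inr (Or.inr ⟨(j, l, l'), rfl⟩))
  have hιinj : Function.Injective fun e => κ (TT L A e) :=
    fun e e' hee => hTinj e e' (hκinj _ _ hee)
  obtain ⟨ι, hι⟩ : ∃ ι : Fin n₀ ↪ Fin n, ∀ e, ι e = κ (TT L A e) := ⟨⟨_, hιinj⟩, fun _ => rfl⟩
  refine ⟨ι, C, ?_, ?_⟩
  · intro e hmem
    rw [hι] at hmem
    simp only [C, mem_union, mem_sdiff, mem_image, mem_univ,
      true_and, mem_singleton] at hmem
    have hin : ∀ s, (Sum.inr (some e, s) : KK m L n₀) ∈ TT L A e := fun s => mem_TT_inr.2 rfl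
    have hnotin : (Sum.inr (none, true) : KK m L n₀) ∉ TT L A e := by
      rw [mem_TT_inr]
      simp
    rcases hmem with ⟨h1, h2⟩ | h1 | ⟨p, h1⟩ | ⟨p, h1⟩
    · push Not at h2
      have h3 := hκ (TT L A e) (Sum.inr (some e, true))
      rw [if_pos (hin true), h.zero _ (hρB _) _ h1 (fun h' => h2 _ h'.symm)] at h3
      have h4 := hκ (TT L A e) (Sum.inr (none, true))
      rw [if_neg hnotin, h.zero _ (hρB _) _ h1 (fun h' => h2 _ h'.symm)] at h4
      exact hαβ (h3.symm.trans h4)
    · have := hκinj _ _ h1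
      have h2 := hin true
      rw [this] at h2
      simp at h2
    · have := hκinj _ _ h1
      have h2 := hin true
      have h3 := hin false
      rw [← this, mem_singleton] at h2 h3
      have h4 := h2.trans h3.symm
      simp at h4
    · have := hκinj _ _ h1
      have h2 := hin true
      rw [← this] at h2
      simp at h2
  · intro v
    rw [natMat, rowSpace_of, Submodule.mem_span_range_iff_exists_fun]
    constructor
    · rintro ⟨c, hc⟩
      let μ : KK m L n₀ → F := Sum.elim
        (fun p => if p.2.1 then (α - β)⁻¹ * c p.1 else - ((α - β)⁻¹ * c p.1)) (fun _ => 0)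
      have hμ : ∑ k, μ k = 0 := by
        rw [Fintype.sum_sum_type]
        simp only [μ, Sum.elim_inr, sum_const_zero, add_zero, Sum.elim_inl]
        rw [Fintype.sum_prod_type]
        apply sum_eq_zero
        intro j _
        rw [Fintype.sum_prod_type, Fintype.sum_bool]
        simp
      have hval : ∀ S, (∑ k, μ k • w (ρ k)) (κ S) = (α - β) * ∑ k ∈ S, μ k := by
        intro S
        rw [Finset.sum_apply]
        simp only [Pi.smul_apply, smul_eq_mul]
        rw [hform, hμ, mul_zero, zero_add]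
      refine ⟨∑ k, μ k • w (ρ k), U.sum_mem fun k _ => U.smul_mem _ (h.mem _ (hρB k)), ?_, ?_⟩
      · intro x hx
        simp only [C, mem_union, mem_sdiff, mem_image, mem_univ, true_and, mem_singleton] at hx
        rcases hx with ⟨h1, h2⟩ | rfl | ⟨p, rfl⟩ | ⟨p, rfl⟩
        · rw [Finset.sum_apply]
          apply sum_eq_zero
          intro k _
          rw [Pi.smul_apply, h.zero _ (hρB k) x h1 (fun h' => h2 ⟨k, h'.symm⟩), smul_zero]
        · rw [hval, sum_empty, mul_zero]
        · rw [hval, sum_singleton]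
          simp [μ]
        · rw [hval, sum_pair (by simp)]
          simp [μ]
      · intro e
        rw [hι, hval, sum_TT hA μ (fun j => (α - β)⁻¹ * c j) (fun p => rfl) (fun j l => rfl) e,
          ← hc, mul_sum, Finset.sum_apply]
        apply sum_congr rfl
        intro j _
        simp only [Pi.smul_apply, smul_eq_mul]
        field_simp
    · rintro ⟨u, hu, huC, huv⟩
      have hu1 : ∀ e, u e = ∑ k, u (ρ k) * w (ρ k) e := by
        intro e
        rw [h.apply_sum hu e, ← sum_subset (s₁ := univ.image ρ)]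
        · rw [sum_image fun a _ b _ hab => hρ hab]
        · intro b hb
          obtain ⟨k, _, rfl⟩ := mem_image.1 hb
          exact hρB k
        · intro b hb hb'
          rw [huC b (hC1 b hb (fun k hk => hb' (mem_image.2 ⟨k, mem_univ _, hk⟩))), zero_mul]
      have hval : ∀ S, u (κ S) = β * ∑ k, u (ρ k) + (α - β) * ∑ k ∈ S, u (ρ k) := by
        intro S
        rw [hu1, hform (fun k => u (ρ k))]
      have h0 : β * ∑ k, u (ρ k) = 0 := by
        have := hval ∅
        rw [huC _ hC2, sum_empty, mul_zero, add_zero] at this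
        exact this.symm
      have h1 : ∀ p, u (ρ (Sum.inr p)) = 0 := by
        intro p
        have := hval {Sum.inr p}
        rw [huC _ (hC3 p), h0, zero_add, sum_singleton] at this
        exact (mul_eq_zero.1 this.symm).resolve_left hγ
      have h2 : ∀ j l l', u (ρ (Sum.inl (j, true, l))) + u (ρ (Sum.inl (j, false, l'))) = 0 := by
        intro j l l'
        have := hval {Sum.inl (j, true, l), Sum.inl (j, false, l')}
        rw [huC _ (hC4 j l l'), h0, zero_add, sum_pair (by simp)] at this
        exact (mul_eq_zero.1 this.symm).resolve_left hγ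
      refine ⟨fun j => - ((α - β) * u (ρ (Sum.inl (j, false, ⟨0, hL⟩)))), ?_⟩
      funext e
      rw [← huv e, hι, hval, h0, zero_add,
        sum_TT hA (fun k => u (ρ k)) (fun j => - u (ρ (Sum.inl (j, false, ⟨0, hL⟩)))) h1
          (fun j l => eq_neg_of_add_eq_zero_left (h2 j l _)) e, Finset.sum_apply, mul_sum]
      apply sum_congr rfl
      intro j _
      simp only [Pi.smul_apply, smul_eq_mul]
      ring

end Pool.Agent.H456
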