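import Mathlib

/-!
# Represented matroids, following the conventions of the problem

An `F`-represented matroid with ground set `Fin n` is the row space of a matrix over `F` with
columns indexed by `Fin n`, that is, a subspace of `Fin n → F`.
-/

open Finset Module

namespace Pool.Agent.H456

variable {F : Type} [Field F]

/-- The `F`-represented matroid `M(A)`: the row space of the matrix `A`. -/
def rowSpace {m n : ℕ} (A : Matrix (Fin m) (Fin n) F) : Submodule F (Fin n → F) :=
  Submodule.span F (Set.range fun i => A i)

/-- The restriction of row vectors to the columns in `X`. -/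
def restr {n : ℕ} (X : Finset (Fin n)) : (Fin n → F) →ₗ[F] (X → F) :=
  LinearMap.funLeft F F (fun x : X => (x : Fin n))

/-- The rank of a set `X` of elements: the rank of the columns in `X`. -/
noncomputable def rk {n : ℕ} (U : Submodule F (Fin n → F)) (X : Finset (Fin n)) : ℕ :=
  finrank F (U.map (restr X))

/-- Tutte `k`-connectivity: there is no `l < k` and no partition `(X, Xᶜ)` of the ground set with
`|X|, |Xᶜ| ≥ l` and `r(X) + r(Xᶜ) - r(M) < l`. -/
def KConn {n : ℕ} (k : ℕ) (U : Submodule F (Fin n → F)) : Prop :=
  ∀ l < k, ∀ X : Finset (Fin n), l ≤ #X → l ≤ #Xᶜ → rk U univ + l ≤ rk U X + rk U Xᶜ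

/-- The dual represented matroid: the orthogonal complement of the row space. -/
def dual {n : ℕ} (U : Submodule F (Fin n → F)) : Submodule F (Fin n → F) where
  carrier := {v | ∀ u ∈ U, ∑ i, v i * u i = 0}
  add_mem' := by
    intro a b ha hb u hu
    simp only [Pi.add_apply, add_mul, sum_add_distrib]
    rw [ha u hu, hb u hu, add_zero]
  zero_mem' := by
    intro u _
    simp
  smul_mem' := by
    intro c x hx u hu
    simp only [Pi.smul_apply, smul_eq_mul, mul_assoc]
    rw [← mul_sum, hx u hu, mul_zero]

/-- `V` is (isomorphic to) a minor of `U`: for some injection `ι` of the ground set of `V` into the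
ground set of `U` and some set `C` of elements outside the image, `V` is obtained by contracting
`C`, deleting the elements outside `C` and the image of `ι`, and relabelling by `ι`. -/
def IsMinor {m n : ℕ} (V : Submodule F (Fin m → F)) (U : Submodule F (Fin n → F)) : Prop :=
  ∃ (ι : Fin m ↪ Fin n) (C : Finset (Fin n)), (∀ i, ι i ∉ C) ∧
    ∀ v : Fin m → F, v ∈ V ↔ ∃ u ∈ U, (∀ c ∈ C, u c = 0) ∧ ∀ i, u (ι i) = v i

/-- `U₂` is a rank-`(≤ t)` perturbation of `U₁`. -/
def Perturb {n : ℕ} (t : ℕ) (U₁ U₂ : Submodule F (Fin n → F)) : Prop :=
  ∃ (m : ℕ) (A P : Matrix (Fin m) (Fin n) F),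
    rowSpace A = U₁ ∧ P.rank ≤ t ∧ rowSpace (A + P) = U₂

/-- Represented frame matroids: the row spaces of matrices with at most two nonzero entries in
each column. -/
def IsFrame {n : ℕ} (U : Submodule F (Fin n → F)) : Prop :=
  ∃ (m : ℕ) (A : Matrix (Fin m) (Fin n) F), (∀ j, {i | A i j ≠ 0}.ncard ≤ 2) ∧ rowSpace A = U

/-- `U` is confined to the subfield `K`. -/
def Confined {n : ℕ} (K : Subfield F) (U : Submodule F (Fin n → F)) : Prop :=
  ∃ (m : ℕ) (A : Matrix (Fin m) (Fin n) F), (∀ i j, A i j ∈ K) ∧ rowSpace A = U

/-- A class of `F`-represented matroids. Every finite ground set is, up to isomorphism, some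
`Fin n`. -/
abbrev MClass (F : Type) [Field F] : Type := ∀ n : ℕ, Submodule F (Fin n → F) → Prop

/-- A class that is closed under minors and isomorphism. -/
def MinorClosed (P : MClass F) : Prop :=
  ∀ (m n : ℕ) (V : Submodule F (Fin m → F)) (U : Submodule F (Fin n → F)),
    P n U → IsMinor V U → P m V

/-- A class that does not contain all `F`-represented matroids. -/
def Proper (P : MClass F) : Prop := ∃ (n : ℕ) (U : Submodule F (Fin n → F)), ¬ P n U

/-- The conclusion of Q1 for the class `P`: for some `k` and `t`, each `k`-connected member is a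
rank-`(≤ t)` perturbation of some `N` such that `N` is a represented frame matroid, or the dual of
`N` is one, or `N` is confined to a proper subfield. -/
def Q1For (P : MClass F) : Prop :=
  ∃ k t : ℕ, ∀ (n : ℕ) (U : Submodule F (Fin n → F)), P n U → KConn k U →
    ∃ N : Submodule F (Fin n → F), Perturb t N U ∧
      (IsFrame N ∨ IsFrame (dual N) ∨ ∃ K : Subfield F, K ≠ ⊤ ∧ Confined K N)

/-- The represented graphic matroid of the directed multigraph with vertices `Fin s` and edges
`Fin n`, where `e` goes from `t e` to `h e`: the row space of its signed incidence matrix. -/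
def graphic {s n : ℕ} (t h : Fin n → Fin s) : Submodule F (Fin n → F) :=
  rowSpace (Matrix.of fun i e => (if t e = i then 1 else 0) - (if h e = i then 1 else 0))

/-- The class does not contain all represented graphic matroids. -/
def OmitsGraphic (P : MClass F) : Prop :=
  ∃ (s n : ℕ) (t h : Fin n → Fin s), ¬ P n (graphic t h)

/-- The class does not contain all duals of represented graphic matroids. -/
def OmitsCographic (P : MClass F) : Prop :=
  ∃ (s n : ℕ) (t h : Fin n → Fin s), ¬ P n (dual (graphic t h))

end Pool.Agent.H456
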