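import Pool.Agent.H456.Mat.Bridge

/-!
# Growth of minor-closed classes
-/

open Finset Module

open scoped Classical

namespace Pool.Agent.H456

open Pack GW

variable {F : Type} [Field F] [Fintype F]

/-- **Polynomial growth.** A minor-closed class that omits the represented matroid of a matrix with
natural entries has polynomially many distinct columns in terms of the rank. -/
theorem bd_of_omit {P : MClass F} (hP : MinorClosed P) {m n₀ : ℕ} (A : Fin m → Fin n₀ → ℕ)
    (hA : ¬ P n₀ (natMat A)) :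
    ∃ N : ℕ, Bd P fun r => (Fintype.card F ^ 2 * (r + 1)) ^ N := by
  set q := Fintype.card F with hq
  set L := (∑ j, ∑ e, A j e) + 1 with hL
  have hAL : ∀ j e, A j e ≤ L := by
    intro j e
    have h1 : A j e ≤ ∑ e, A j e := single_le_sum (f := fun e => A j e)
      (fun _ _ => Nat.zero_le _) (mem_univ e)
    have h2 : ∑ e, A j e ≤ ∑ j, ∑ e, A j e := single_le_sum (f := fun j => ∑ e, A j e)
      (fun _ _ => Nat.zero_le _) (mem_univ j)
    omega
  set k := Fintype.card (KK m L n₀) with hk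
  refine ⟨q ^ 2 * k + 1, fun n U hU hsep => ?_⟩
  by_contra hlt
  push Not at hlt
  apply hA
  obtain ⟨B, w, hB⟩ := exists_base U
  rw [hB.finrank_eq] at hlt
  let x : Fin n → Fin n → F := fun e b => w b e
  have hinj : ∀ e e', (∀ b ∈ B, x e b = x e' b) → e = e' := by
    intro e e' hee
    by_contra hne
    obtain ⟨u, hu, hue⟩ := hsep e e' hne
    apply hue
    rw [hB.apply_sum hu e, hB.apply_sum hu e']
    exact sum_congr rfl fun b hb => by rw [show w b e = w b e' from hee b hb]
  obtain ⟨I, hI, hIc, f, g, hcube⟩ := exists_cube B (q ^ 2 * k + 1) (univ.image x) (by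
    intro y hy y' hy' hyy
    obtain ⟨e, _, rfl⟩ := mem_image.1 hy
    obtain ⟨e', _, rfl⟩ := mem_image.1 hy'
    rw [hinj e e' hyy]) (by
    rw [card_image_of_injective _ (fun e e' h => hinj e e' fun b _ => congrFun h b), card_univ,
      Fintype.card_fin]
    exact hlt)
  obtain ⟨α, β, I', hI', hI'c, hcube'⟩ := exists_const_cube (N := k) hcube (by
    rw [hIc]; exact Nat.lt_succ_self _)
  have hαβ : α ≠ β := by
    obtain ⟨i, hi⟩ : I'.Nonempty := card_pos.1 (by omega)
    exact hcube'.1 i hi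
  obtain ⟨ρ'⟩ : Nonempty (KK m L n₀ ↪ I') := by
    apply Function.Embedding.nonempty_of_card_le
    rw [Fintype.card_coe]
    exact hI'c.le
  have hch : ∀ S : Finset (KK m L n₀), ∃ e : Fin n, ∀ k, w (ρ' k) e = if k ∈ S then α else β := by
    intro S
    obtain ⟨y, hy, h1, h2⟩ := hcube'.2 (S.image fun k => (ρ' k : Fin n)) (by
      intro i hi
      obtain ⟨k, _, rfl⟩ := mem_image.1 hi
      exact (ρ' k).2)
    obtain ⟨e, _, rfl⟩ := mem_image.1 hy
    refine ⟨e, fun k => ?_⟩
    split_ifs with hk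
    · exact h1 _ (mem_image_of_mem _ hk)
    · apply h2 _ (ρ' k).2
      intro hmem
      obtain ⟨k', hk', hkk⟩ := mem_image.1 hmem
      exact hk ((ρ'.injective (Subtype.ext hkk)) ▸ hk')
  choose κ hκ using hch
  exact hP _ _ _ _ hU (cube_minor hB (by omega) A hAL hαβ (fun k => (ρ' k : Fin n))
    (fun a b h => ρ'.injective (Subtype.ext h)) (fun k => hI (hI' (ρ' k).2)) κ hκ)

omit [Fintype F] in
theorem mem_graphic {s n : ℕ} {t h : Fin n → Fin s} {x : Fin n → F} :
    x ∈ (graphic t h : Submodule F (Fin n → F)) ↔ ∃ c : Fin s → F, ∀ e, x e = c (t e) - c (h e) := by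
  rw [graphic, rowSpace_of, Submodule.mem_span_range_iff_exists_fun]
  have key : ∀ (c : Fin s → F) (e : Fin n), (∑ i, c i • ((fun e => (if t e = i then (1 : F) else 0) -
      (if h e = i then 1 else 0)) : Fin n → F)) e = c (t e) - c (h e) := by
    intro c e
    rw [Finset.sum_apply]
    simp only [Pi.smul_apply, smul_eq_mul, mul_sub, mul_ite, mul_one, mul_zero]
    rw [sum_sub_distrib, sum_ite_eq, sum_ite_eq, if_pos (mem_univ _), if_pos (mem_univ _)]
  constructor
  · rintro ⟨c, rfl⟩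
    exact ⟨c, fun e => key c e⟩
  · rintro ⟨c, hc⟩
    exact ⟨c, funext fun e => (key c e).trans (hc e).symm⟩

/-- Signed incidence matrices have entries in the prime field. -/
theorem graphic_eq_natMat {s n : ℕ} (t h : Fin n → Fin s) :
    (graphic t h : Submodule F (Fin n → F)) = natMat fun i e =>
      (if t e = i then 1 else 0) + (Fintype.card F - 1) * (if h e = i then 1 else 0) := by
  unfold graphic natMat
  congr 2
  funext i e
  have h1 : ((Fintype.card F - 1 : ℕ) : F) = -1 := by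
    rw [Nat.cast_sub Fintype.card_pos, FiniteField.cast_card_eq_zero]
    simp
  rw [Nat.cast_add, Nat.cast_mul, h1]
  split_ifs <;> simp

/-- A large number of the form `2 ^ (D + 1)` beats a polynomial. -/
theorem exists_exp_gt (a N : ℕ) : ∃ D : ℕ, 0 < D ∧ a * ((a * (D + 1 + 1)) ^ N + 1) < 2 ^ (D + 1) := by
  set j := 3 + a + a * N + 2 * N with hj
  have h4 : j + 1 ≤ 2 ^ j := Nat.lt_two_pow_self
  have h5 : (j + 1) * (j + 1) ≤ 2 ^ (2 * j) := by
    rw [two_mul, pow_add]
    exact Nat.mul_le_mul h4 h4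
  have h6 : 3 + a + (a + 2 * j) * N ≤ (j + 1) * (j + 1) := by
    nlinarith [Nat.zero_le (a * N), Nat.zero_le (N * j), Nat.zero_le (a * j),
      Nat.zero_le (a * N * j), Nat.zero_le N, Nat.zero_le a, Nat.zero_le j]
  have h7 : 3 ≤ 2 ^ (2 * j) := by omega
  refine ⟨2 ^ (2 * j) - 2, by omega, ?_⟩
  have h8 : 2 ^ (2 * j) - 2 + 1 + 1 = 2 ^ (2 * j) := by omega
  rw [h8]
  have ha : a ≤ 2 ^ a := Nat.lt_two_pow_self.le
  have h9 : (a * 2 ^ (2 * j)) ^ N ≤ 2 ^ ((a + 2 * j) * N) := by
    rw [pow_mul 2 (a + 2 * j) N]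
    apply Nat.pow_le_pow_left
    rw [pow_add]
    exact Nat.mul_le_mul_right _ ha
  have h10 : (a * 2 ^ (2 * j)) ^ N + 1 ≤ 2 ^ ((a + 2 * j) * N + 1) := by
    have : 1 ≤ 2 ^ ((a + 2 * j) * N) := Nat.one_le_two_pow
    rw [pow_succ]
    omega
  calc a * ((a * 2 ^ (2 * j)) ^ N + 1) ≤ 2 ^ a * 2 ^ ((a + 2 * j) * N + 1) :=
        Nat.mul_le_mul ha h10
    _ = 2 ^ (a + ((a + 2 * j) * N + 1)) := (pow_add _ _ _).symm
    _ < 2 ^ (2 ^ (2 * j) - 2 + 1) := by
        apply Nat.pow_lt_pow_right (by norm_num)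
        omega

theorem mono_pow (a N : ℕ) : Monotone fun r : ℕ => (a * (r + 1)) ^ N := by
  intro r r' h
  apply Nat.pow_le_pow_left
  apply Nat.mul_le_mul_left
  omega

/-- Polynomial growth makes a class thin. -/
theorem thin_of_bd {P : MClass F} (hP : MinorClosed P) {N : ℕ}
    (hbd : Bd P fun r => (Fintype.card F ^ 2 * (r + 1)) ^ N) :
    ∃ D : ℕ, 0 < D ∧ Thin (toCls P hP) D := by
  obtain ⟨D, hD, hlt⟩ := exists_exp_gt (Fintype.card F ^ 2) N
  refine ⟨D, hD, fun V _ _ E hE hr => ?_⟩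
  refine lt_of_le_of_lt (card_cone_le hP (mono_pow _ _) hbd hE) (lt_of_le_of_lt ?_ hlt)
  apply Nat.mul_le_mul
  · exact Nat.le_self_pow (by norm_num) _
  · have := mono_pow (Fintype.card F ^ 2) N hr
    simp only at this ⊢
    omega

omit [Fintype F] in
/-- A class that omits a represented graphic matroid contains no large clique. -/
theorem noClique_of_omit {P : MClass F} (hP : MinorClosed P) {s n : ℕ} {t h : Fin n → Fin s}
    (hG : ¬ P n (graphic t h)) : NoClique (toCls P hP) (s + (n + n)) := by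
  intro V _ _ E z₀ hE hz₀ hz₀E
  apply hG
  let ε : Fin s ⊕ (Fin n ⊕ Fin n) ≃ Fin (s + (n + n)) :=
    (Equiv.sumCongr (Equiv.refl _) finSumFinEquiv).trans finSumFinEquiv
  set z : Fin s ⊕ (Fin n ⊕ Fin n) → V := fun k => z₀ (ε k) with hz
  have hzli : LinearIndependent F z := hz₀.comp ε ε.injective
  have hzE : ∀ i j, i ≠ j → z i - z j ∈ E := fun i j hij =>
    hz₀E _ _ fun h' => hij (ε.injective h')
  have hzinj : Function.Injective z := hzli.injective
  -- dual functionals
  obtain ⟨ψ, hψ⟩ : ∃ ψ : Fin s ⊕ (Fin n ⊕ Fin n) → (V →ₗ[F] F), ∀ i j,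
      ψ i (z j) = if j = i then 1 else 0 := by
    obtain ⟨φ, hφ⟩ := exists_dual (F := F) (univ.image z) (by
      rw [coe_image, coe_univ, Set.image_univ]
      exact hzli.linearIndepOn_id)
    refine ⟨fun i => φ (z i), fun i j => ?_⟩
    rw [hφ _ (mem_image_of_mem _ (mem_univ _)) _ (mem_image_of_mem _ (mem_univ _))]
    by_cases hij : j = i
    · simp [hij]
    · rw [if_neg hij, if_neg fun h' => hij (hzinj h')]
  have hdiff : ∀ i j k l, i ≠ j → z i - z j = z k - z l → i = k ∨ i = l := by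
    intro i j k l hij heq
    have := congrArg (ψ i) heq
    rw [map_sub, map_sub, hψ, hψ, hψ, hψ, if_pos rfl, if_neg (Ne.symm hij), sub_zero] at this
    by_contra hnot
    push Not at hnot
    rw [if_neg (Ne.symm hnot.1), if_neg (Ne.symm hnot.2), sub_zero] at this
    exact one_ne_zero this
  have hdiff' : ∀ i j k l, i ≠ j → z i - z j = z k - z l → j = k ∨ j = l := by
    intro i j k l hij heq
    have h1 : z j - z i = z l - z k := by
      rw [← neg_sub, heq, neg_sub]
    exact (hdiff j i l k (Ne.symm hij) h1).symm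
  obtain ⟨m, v, hv, hvE⟩ := hE
  have hch : ∀ p : (Fin s ⊕ (Fin n ⊕ Fin n)) × (Fin s ⊕ (Fin n ⊕ Fin n)), ∃ e : Option (Fin m),
      p.1 ≠ p.2 → ∃ i, e = some i ∧ v i = z p.1 - z p.2 := by
    intro p
    by_cases hp : p.1 = p.2
    · exact ⟨none, fun h' => absurd hp h'⟩
    · obtain ⟨e, he⟩ := hvE _ (hzE _ _ hp) (sub_ne_zero.2 fun h' => hp (hzinj h'))
      exact ⟨some e, fun _ => ⟨e, rfl, he⟩⟩
  choose η₀ hη₀ using hch
  -- the three kinds of edges
  have h1 : ∀ e : Fin n, ∃ i : Fin m, v i = z (Sum.inl (t e)) - z (Sum.inr (Sum.inl e)) := by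
    intro e
    obtain ⟨i, _, hi⟩ := hη₀ (Sum.inl (t e), Sum.inr (Sum.inl e)) (by simp)
    exact ⟨i, hi⟩
  have h2 : ∀ e : Fin n, ∃ i : Fin m,
      v i = z (Sum.inr (Sum.inl e)) - z (Sum.inr (Sum.inr e)) := by
    intro e
    obtain ⟨i, _, hi⟩ := hη₀ (Sum.inr (Sum.inl e), Sum.inr (Sum.inr e)) (by simp)
    exact ⟨i, hi⟩
  have h3 : ∀ e : Fin n, ∃ i : Fin m, v i = z (Sum.inr (Sum.inr e)) - z (Sum.inl (h e)) := by
    intro e
    obtain ⟨i, _, hi⟩ := hη₀ (Sum.inr (Sum.inr e), Sum.inl (h e)) (by simp)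
    exact ⟨i, hi⟩
  choose a ha using h1
  choose b hb using h2
  choose c hc using h3
  have hainj : Function.Injective a := by
    intro e e' hee
    have h4 : z (Sum.inl (t e)) - z (Sum.inr (Sum.inl e)) =
        z (Sum.inl (t e')) - z (Sum.inr (Sum.inl e')) := by rw [← ha, ← ha, hee]
    rcases hdiff' _ _ _ _ (by simp) h4 with h5 | h5
    · simp at h5
    · simpa using h5
  refine hP n m _ _ hv ⟨⟨a, hainj⟩, univ.image b ∪ univ.image c, ?_, ?_⟩
  · intro e hmem
    change a e ∈ _ at hmem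
    rcases mem_union.1 hmem with hmem | hmem
    · obtain ⟨e', _, he'⟩ := mem_image.1 hmem
      have h4 : z (Sum.inl (t e)) - z (Sum.inr (Sum.inl e)) =
          z (Sum.inr (Sum.inl e')) - z (Sum.inr (Sum.inr e')) := by rw [← ha, ← hb, he']
      rcases hdiff _ _ _ _ (by simp) h4 with h5 | h5 <;> simp at h5
    · obtain ⟨e', _, he'⟩ := mem_image.1 hmem
      have h4 : z (Sum.inl (t e)) - z (Sum.inr (Sum.inl e)) =
          z (Sum.inr (Sum.inr e')) - z (Sum.inl (h e')) := by rw [← ha, ← hc, he']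
      rcases hdiff' _ _ _ _ (by simp) h4 with h5 | h5 <;> simp at h5
  · intro x
    rw [mem_graphic]
    constructor
    · rintro ⟨d, hd⟩
      let d' : Fin s ⊕ (Fin n ⊕ Fin n) → F := Sum.elim d (Sum.elim (fun e => d (h e))
        (fun e => d (h e)))
      let φ : V →ₗ[F] F := ∑ k, d' k • ψ k
      have hφ : ∀ k, φ (z k) = d' k := by
        intro k
        simp only [φ, LinearMap.sum_apply, LinearMap.smul_apply, hψ, smul_eq_mul, mul_ite, mul_one,
          mul_zero]
        rw [sum_ite_eq, if_pos (mem_univ _)]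
      refine ⟨fun i => φ (v i), mem_rowsp.2 ⟨φ, fun _ => rfl⟩, ?_, ?_⟩
      · intro i hi
        change φ (v i) = 0
        rcases mem_union.1 hi with hi | hi
        · obtain ⟨e, _, rfl⟩ := mem_image.1 hi
          rw [hb, map_sub, hφ, hφ]
          exact sub_self _
        · obtain ⟨e, _, rfl⟩ := mem_image.1 hi
          rw [hc, map_sub, hφ, hφ]
          exact sub_self _
      · intro e
        change φ (v (a e)) = x e
        rw [ha, map_sub, hφ, hφ, hd e]
        rfl
    · rintro ⟨u, hu, huC, hux⟩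
      obtain ⟨φ, hφ⟩ := mem_rowsp.1 hu
      refine ⟨fun i => φ (z (Sum.inl i)), fun e => ?_⟩
      have h4 : φ (z (Sum.inr (Sum.inl e))) = φ (z (Sum.inr (Sum.inr e))) := by
        have := huC (b e) (mem_union_left _ (mem_image_of_mem _ (mem_univ _)))
        rw [← hφ, hb, map_sub] at this
        exact sub_eq_zero.1 this
      have h5 : φ (z (Sum.inr (Sum.inr e))) = φ (z (Sum.inl (h e))) := by
        have := huC (c e) (mem_union_right _ (mem_image_of_mem _ (mem_univ _)))
        rw [← hφ, hc, map_sub] at this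
        exact sub_eq_zero.1 this
      rw [← hux e]
      change u (a e) = _
      rw [← hφ, ha, map_sub, h4, h5]

omit [Fintype F] in
theorem _root_.Pool.Agent.H456.GW.NoClique.succ {P : Cls F} {s : ℕ} (h : NoClique P s) :
    NoClique P (s + 1) := by
  intro V _ _ E z hE hz hzE
  exact h V E (fun i => z i.castSucc) hE (hz.comp _ (Fin.castSucc_injective s))
    fun i j hij => hzE _ _ fun h' => hij (Fin.castSucc_injective s h')

/-- **Linear growth.** A minor-closed class that omits a represented graphic matroid has at most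
linearly many distinct columns in terms of the rank. -/
theorem linear_of_omitsGraphic {P : MClass F} (hP : MinorClosed P) (hG : OmitsGraphic P) :
    ∃ κ : ℕ, Bd P fun r => κ * (r + 1) := by
  obtain ⟨s, n, t, h, hG⟩ := hG
  obtain ⟨N, hN⟩ := bd_of_omit hP _ (by rw [graphic_eq_natMat] at hG; exact hG)
  obtain ⟨D, hD, hthin⟩ := thin_of_bd hP hN
  have hcl := (noClique_of_omit hP hG).succ
  obtain ⟨κ, hκ⟩ := linear_growth hD (Nat.succ_pos _) hthin hcl
  exact ⟨κ, bd_of_cone hP hκ⟩

end Pool.Agent.H456
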