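import Pool.Agent.H456.Mat.Log

/-!
# Sparse bases of the row space, logarithmic version
-/

open Finset Module

open scoped Classical

namespace Pool.Agent.H456

variable {F : Type} [Field F]

theorem exists_small_van_real [Fintype F] {P : MClass F} (hP : MinorClosed P) {g : ℕ → ℝ}
    (hg : Monotone g)
    (hK : ∀ (n : ℕ) (U : Submodule F (Fin n → F)), P n U →
      U ≠ ⊥ → ∃ v ∈ U, v ≠ 0 ∧ (#(spt v) : ℝ) * finrank F U ≤ g n)
    {n : ℕ} {U : Submodule F (Fin n → F)} (hU : P n U) (C : Finset (Fin n))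
    (hne : van U C ≠ ⊥) :
    ∃ u ∈ van U C, u ≠ 0 ∧ (#(spt u) : ℝ) * finrank F (van U C) ≤ g n := by
  let ι : Fin #Cᶜ ↪ Fin n := (Cᶜ.orderEmbOfFin rfl).toEmbedding
  have hιC : ∀ i, ι i ∉ C := fun i => mem_compl.1 (Cᶜ.orderEmbOfFin_mem rfl i)
  have hιs : ∀ e, e ∉ C → ∃ i, ι i = e := by
    intro e he
    have : (e : Fin n) ∈ Set.range (Cᶜ.orderEmbOfFin rfl) := by
      rw [range_orderEmbOfFin, mem_coe, mem_compl]
      exact he
    exact this
  let f : (Fin n → F) →ₗ[F] (Fin #Cᶜ → F) := LinearMap.funLeft F F ι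
  have hinj : ∀ u ∈ van U C, f u = 0 → u = 0 := by
    intro u hu hf
    funext e
    by_cases he : e ∈ C
    · exact hu.2 e he
    · obtain ⟨i, rfl⟩ := hιs e he
      exact congrFun hf i
  set V := (van U C).map f with hV
  have hPV : P _ V := by
    apply hP _ _ _ _ hU
    refine ⟨ι, C, hιC, fun v => ?_⟩
    constructor
    · rintro ⟨u, hu, rfl⟩
      exact ⟨u, hu.1, hu.2, fun i => rfl⟩
    · rintro ⟨u, hu, hu0, huv⟩
      exact ⟨u, ⟨hu, hu0⟩, funext huv⟩
  have hfin : finrank F V = finrank F (van U C) := by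
    have hfi : Function.Injective (f.domRestrict (van U C)) := by
      rw [injective_iff_map_eq_zero]
      intro u hu
      exact Subtype.ext (hinj u.1 u.2 hu)
    have h1 := LinearMap.finrank_range_of_inj hfi
    rw [LinearMap.domRestrict, LinearMap.range_comp, Submodule.range_subtype] at h1
    exact h1
  have hVne : V ≠ ⊥ := by
    obtain ⟨u, hu, hu0⟩ := (Submodule.ne_bot_iff _).1 hne
    rw [Submodule.ne_bot_iff]
    exact ⟨f u, ⟨u, hu, rfl⟩, fun h => hu0 (hinj u hu h)⟩
  obtain ⟨v, ⟨u, hu, rfl⟩, hv0, hle⟩ := hK _ V hPV hVne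
  refine ⟨u, hu, fun h => hv0 (by rw [h, map_zero]), ?_⟩
  have hspt : #(spt u) ≤ #(spt (f u)) := by
    have : spt u ⊆ (spt (f u)).map ι := by
      intro e he
      rw [mem_spt] at he
      have heC : e ∉ C := fun h => he (hu.2 e h)
      obtain ⟨i, rfl⟩ := hιs e heC
      rw [mem_map]
      exact ⟨i, mem_spt.2 he, rfl⟩
    exact (card_le_card this).trans (card_map _).le
  have hcard : #Cᶜ ≤ n := (card_le_univ _).trans (by rw [Fintype.card_fin])
  calc (#(spt u) : ℝ) * finrank F (van U C) ≤ #(spt (f u)) * finrank F V := by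
        rw [hfin]
        exact mul_le_mul_of_nonneg_right (by exact_mod_cast hspt) (Nat.cast_nonneg _)
    _ ≤ g #Cᶜ := hle
    _ ≤ g n := hg hcard

/-- **Sparse bases**, for an arbitrary monotone bound. -/
theorem sparse_basis_real [Fintype F] {P : MClass F} (hP : MinorClosed P) {g : ℕ → ℝ}
    (hg : Monotone g)
    (hK : ∀ (n : ℕ) (U : Submodule F (Fin n → F)), P n U →
      U ≠ ⊥ → ∃ v ∈ U, v ≠ 0 ∧ (#(spt v) : ℝ) * finrank F U ≤ g n)
    {n : ℕ} {U : Submodule F (Fin n → F)} (hU : P n U) (r : ℕ) (C : Finset (Fin n))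
    (hr : finrank F (van U C) = r) :
    ∃ u : Fin r → (Fin n → F), LinearIndependent F u ∧
      Submodule.span F (Set.range u) = van U C ∧
      ∀ i : Fin r, (#(spt (u i)) : ℝ) * ((i : ℕ) + 1) ≤ g n := by
  induction r generalizing C with
  | zero =>
    refine ⟨fun i => i.elim0, linearIndependent_empty_type, ?_, fun i => i.elim0⟩
    rw [Submodule.finrank_eq_zero] at hr
    rw [hr, Submodule.span_eq_bot]
    rintro x ⟨i, rfl⟩
    exact i.elim0
  | succ r ih =>
    have hne : van U C ≠ ⊥ := by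
      intro h0
      rw [h0, finrank_bot] at hr
      omega
    obtain ⟨v, hv, hv0, hle⟩ := exists_small_van_real hP hg hK hU C hne
    obtain ⟨e, he⟩ : ∃ e, v e ≠ 0 := by
      by_contra hall
      push Not at hall
      exact hv0 (funext hall)
    have hr' := finrank_van_insert hv he
    obtain ⟨u, hu, hspan, hsp⟩ := ih (insert e C) (by omega)
    have hsub : van U (insert e C) ≤ van U C := fun x hx =>
      ⟨hx.1, fun c hc => hx.2 c (mem_insert_of_mem hc)⟩
    have hvnot : v ∉ Submodule.span F (Set.range u) := by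
      rw [hspan]
      intro h
      exact he (h.2 e (mem_insert_self _ _))
    have hli : LinearIndependent F (Fin.snoc u v : Fin (r + 1) → (Fin n → F)) := by
      rw [linearIndependent_finSnoc]
      exact ⟨hu, hvnot⟩
    refine ⟨Fin.snoc u v, hli, ?_, ?_⟩
    · apply Submodule.eq_of_le_of_finrank_eq
      · rw [Submodule.span_le]
        rintro x ⟨i, rfl⟩
        refine Fin.lastCases ?_ (fun i => ?_) i
        · rw [Fin.snoc_last]
          exact hv
        · rw [Fin.snoc_castSucc]
          apply hsub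
          rw [← hspan]
          exact Submodule.subset_span ⟨i, rfl⟩
      · rw [finrank_span_eq_card hli, Fintype.card_fin, hr]
    · intro i
      refine Fin.lastCases ?_ (fun i => ?_) i
      · rw [Fin.snoc_last, Fin.val_last]
        rw [hr] at hle
        exact_mod_cast hle
      · rw [Fin.snoc_castSucc]
        exact hsp i

theorem monotone_log_bound (C : ℕ) : Monotone fun n : ℕ => (C : ℝ) * n * Real.log (n + 1) := by
  intro a b hab
  have h1 : (a : ℝ) ≤ b := by exact_mod_cast hab
  have h2 : Real.log ((a : ℝ) + 1) ≤ Real.log ((b : ℝ) + 1) :=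
    Real.log_le_log (by positivity) (by linarith)
  have h3 : 0 ≤ Real.log ((a : ℝ) + 1) := Real.log_nonneg (by
    have : (0 : ℝ) ≤ a := Nat.cast_nonneg _
    linarith)
  change (C : ℝ) * a * Real.log (a + 1) ≤ C * b * Real.log (b + 1)
  apply mul_le_mul (mul_le_mul_of_nonneg_left h1 (Nat.cast_nonneg _)) h2 h3 (by positivity)

end Pool.Agent.H456
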