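import Pool.Agent.H456.Mat.Prime

/-!
# Polynomial growth of the dual class and small cocircuits
-/

open Finset Module

open scoped Classical

namespace Pool.Agent.H456

variable {F : Type} [Field F]

/-- If simple members of the dual class have at most `(a (r + 1)) ^ N` elements, then members of
rank `r` with `n` elements have a cocircuit with at most `C n / r ^ (1 / N)` elements. -/
theorem power_of_bd [Fintype F] {P : MClass F} (hP : MinorClosed P) {a N : ℕ} (hN : 0 < N)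
    (hbd : Bd (coClass P) fun r => (a * (r + 1)) ^ N) :
    ∃ C : ℕ, 0 < C ∧ ∀ (n : ℕ) (U : Submodule F (Fin n → F)), P n U →
      U ≠ ⊥ → ∃ v ∈ U, v ≠ 0 ∧ #(spt v) ^ N * finrank F U ≤ C * n ^ N := by
  obtain ⟨D, hD, hlt⟩ := exists_exp_gt a N
  set q := Fintype.card F with hq
  have hmono : Monotone fun r : ℕ => (a * (r + 1)) ^ N := mono_pow a N
  have hDg : (a * (D + 1 + 1)) ^ N < 2 ^ (D + 1) := by
    refine lt_of_le_of_lt ?_ hlt
    rcases Nat.eq_zero_or_pos a with h0 | h0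
    · simp [h0, hN.ne']
    · exact (Nat.le_succ _).trans (Nat.le_mul_of_pos_left _ h0)
  set c := a * (8 * D * q + 2) with hc
  refine ⟨2 * c ^ N + (4 * D + 6) ^ N, by positivity, fun n U hU hne => ?_⟩
  set C := 2 * c ^ N + (4 * D + 6) ^ N with hC
  -- a vector of smallest support
  obtain ⟨v₀, hv₀, hv₀0⟩ := (Submodule.ne_bot_iff U).1 hne
  obtain ⟨γ, ⟨v, hv, hv0, hγ⟩, hmin⟩ := Nat.findX (p := fun γ => ∃ v ∈ U, v ≠ 0 ∧ #(spt v) = γ)
    ⟨_, v₀, hv₀, hv₀0, rfl⟩
  have hmin' : ∀ u ∈ U, u ≠ 0 → γ ≤ #(spt u) := by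
    intro u hu hu0
    by_contra hlt'
    push Not at hlt'
    exact hmin _ hlt' ⟨u, hu, hu0, rfl⟩
  refine ⟨v, hv, hv0, ?_⟩
  rw [hγ]
  have hrn : finrank F U ≤ n := finrank_le U
  have hn1 : n ≤ n ^ N := Nat.le_self_pow hN.ne' n
  have hγn : γ ≤ n := by
    rw [← hγ]
    exact (card_le_univ _).trans (by rw [Fintype.card_fin])
  rcases Nat.lt_or_ge (4 * D + 6) γ with hγC | hγC
  swap
  · calc γ ^ N * finrank F U ≤ (4 * D + 6) ^ N * n ^ N :=
          Nat.mul_le_mul (Nat.pow_le_pow_left hγC N) (hrn.trans hn1)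
      _ ≤ C * n ^ N := Nat.mul_le_mul_right _ (by omega)
  have hrn' : finrank F U < n := by
    rcases hrn.lt_or_eq with h1 | h1
    · exact h1
    · exfalso
      have h2 : U = ⊤ := by
        apply Submodule.eq_top_of_finrank_eq
        rw [finrank_fintype_fun_eq_card, Fintype.card_fin, h1]
      have hn : 0 < n := by omega
      have h3 := hmin' (Pi.single ⟨0, hn⟩ 1) (by rw [h2]; exact Submodule.mem_top) (by
        intro h0
        have := congrFun h0 ⟨0, hn⟩
        simp at this)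
      have h4 : spt (Pi.single (⟨0, hn⟩ : Fin n) (1 : F)) ⊆ {⟨0, hn⟩} := by
        intro i hi
        rw [mem_spt] at hi
        rw [mem_singleton]
        by_contra hne'
        exact hi (Pi.single_eq_of_ne hne' _)
      have h5 := card_le_card h4
      rw [card_singleton] at h5
      omega
  obtain ⟨k, hk⟩ : ∃ k, γ = k + 2 := ⟨γ - 2, by omega⟩
  have hrow := row_core hP hmono hbd (D := D) hDg hU (k := k) (by omega)
    (fun u hu hu0 => hk ▸ hmin' u hu hu0) hrn'
  rw [← hq] at hrow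
  set r := finrank F U with hr
  set x := 4 * D * ((n - r) * q) / k with hx
  have h1 : k * x ≤ 4 * D * (n * q) := by
    refine (Nat.mul_div_le _ _).trans ?_
    apply Nat.mul_le_mul_left
    apply Nat.mul_le_mul_right
    omega
  have h2 : γ * (x + 1) ≤ (8 * D * q + 2) * n := by
    have h3 : γ ≤ 2 * k := by omega
    calc γ * (x + 1) ≤ 2 * k * (x + 1) := Nat.mul_le_mul_right _ h3
      _ = 2 * (k * x) + 2 * k := by ring
      _ ≤ 2 * (4 * D * (n * q)) + 2 * n := by omega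
      _ = (8 * D * q + 2) * n := by ring
  calc γ ^ N * r ≤ γ ^ N * (2 * (a * (x + 1)) ^ N) := Nat.mul_le_mul_left _ hrow
    _ = 2 * (a * (γ * (x + 1))) ^ N := by
      rw [mul_left_comm, ← mul_pow]
      congr 2
      ring
    _ ≤ 2 * (a * ((8 * D * q + 2) * n)) ^ N :=
      Nat.mul_le_mul_left _ (Nat.pow_le_pow_left (Nat.mul_le_mul_left _ h2) N)
    _ = 2 * c ^ N * n ^ N := by
      rw [hc, ← mul_assoc a, mul_pow (a * (8 * D * q + 2)) n N, mul_assoc 2]
    _ ≤ C * n ^ N := Nat.mul_le_mul_right _ (by omega)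

/-- The dual class omits a matroid given by natural numbers. -/
theorem coClass_omit [Finite F] {P : MClass F} {n : ℕ} {V : Submodule F (Fin n → F)}
    (hV : Confined ⊥ V) (h : ¬ P n V) :
    ∃ A : Fin n → Fin n → ℕ, ¬ coClass P n (natMat A) := by
  obtain ⟨A, hA⟩ := exists_natMat_dual hV
  refine ⟨A, ?_⟩
  rw [coClass, ← hA, dual_dual]
  exact h

theorem power_saving [Fintype F] {P : MClass F} (hP : MinorClosed P)
    (h : ∃ (n : ℕ) (V : Submodule F (Fin n → F)), Confined ⊥ V ∧ ¬ P n V) :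
    ∃ C N : ℕ, 0 < N ∧ ∀ (n : ℕ) (U : Submodule F (Fin n → F)), P n U →
      U ≠ ⊥ → ∃ v ∈ U, v ≠ 0 ∧ #(spt v) ^ N * finrank F U ≤ C * n ^ N := by
  obtain ⟨n, V, hV, hPV⟩ := h
  obtain ⟨A, hA⟩ := coClass_omit hV hPV
  obtain ⟨N, hN⟩ := bd_of_omit hP.coClass A hA
  have hN' : Bd (coClass P) fun r => (Fintype.card F ^ 2 * (r + 1)) ^ (N + 1) := by
    intro m U hU hsep
    refine (hN m U hU hsep).trans (Nat.pow_le_pow_right ?_ (Nat.le_succ N))
    have : 0 < Fintype.card F := Fintype.card_pos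
    positivity
  obtain ⟨C, _, hC⟩ := power_of_bd hP (Nat.succ_pos N) hN'
  exact ⟨C, N + 1, Nat.succ_pos N, hC⟩

end Pool.Agent.H456
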