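import Pool.Agent.H456.Mat.Small

/-!
# Matroids confined to the prime subfield
-/

open Finset Module

open scoped Classical

namespace Pool.Agent.H456

variable {F : Type} [Field F]

/-- Elements of the prime field of a finite field are natural numbers. -/
theorem exists_nat_of_mem_bot [Finite F] {x : F} (hx : x ∈ (⊥ : Subfield F)) :
    ∃ a : ℕ, (a : F) = x := by
  obtain ⟨p, hp⟩ := CharP.exists F
  have hp' : p.Prime := CharP.char_is_prime F p
  have : Fact p.Prime := ⟨hp'⟩
  obtain ⟨z, rfl⟩ := (mem_bot_iff_intCast p F).1 hx
  refine ⟨(z % p).toNat, ?_⟩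
  have h1 : ((z % p).toNat : ℤ) = z % p :=
    Int.toNat_of_nonneg (Int.emod_nonneg _ (by exact_mod_cast hp'.ne_zero))
  have h2 : (((z % p).toNat : ℕ) : F) = (((z % p : ℤ)) : F) := by
    rw [← h1, Int.cast_natCast]
    rw [h1]
  rw [h2]
  have h3 : z = z % p + p * (z / p) := (Int.emod_add_mul_ediv z p).symm
  conv_rhs => rw [h3]
  rw [Int.cast_add, Int.cast_mul, Int.cast_natCast, CharP.cast_eq_zero F p, zero_mul, add_zero]

/-- The dual of a matroid confined to the prime subfield is given by a matrix of natural
numbers. -/
theorem exists_natMat_dual [Finite F] {n : ℕ} {V : Submodule F (Fin n → F)}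
    (hV : Confined ⊥ V) : ∃ A : Fin n → Fin n → ℕ, dual V = natMat A := by
  obtain ⟨m, A, hA, rfl⟩ := hV
  let K : Subfield F := ⊥
  let A' : Fin m → Fin n → K := fun i j => ⟨A i j, hA i j⟩
  let V' : Submodule K (Fin n → K) := Submodule.span K (Set.range A')
  obtain ⟨B, w, hB⟩ := exists_base V'
  have hrow : ∀ v ∈ V', (fun j => ((v j : K) : F)) ∈ rowSpace A := by
    intro v hv
    induction hv using Submodule.span_induction with
    | mem v hv =>
      obtain ⟨i, rfl⟩ := hv
      exact Submodule.subset_span ⟨i, rfl⟩
    | zero =>
      have : (fun j => (((0 : Fin n → K) j : K) : F)) = 0 := by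
        funext j
        rfl
      rw [this]
      exact Submodule.zero_mem _
    | add u v _ _ hu hv =>
      have : (fun j => (((u + v) j : K) : F)) = (fun j => ((u j : K) : F)) +
          fun j => ((v j : K) : F) := by
        funext j
        rfl
      rw [this]
      exact Submodule.add_mem _ hu hv
    | smul a v _ hv =>
      have : (fun j => (((a • v) j : K) : F)) = (a : F) • fun j => ((v j : K) : F) := by
        funext j
        rfl
      rw [this]
      exact Submodule.smul_mem _ _ hv
  let w' : Fin n → Fin n → F := fun b e => ((w b e : K) : F)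
  have hB' : IsBase (rowSpace A) B w' := by
    refine ⟨fun b hb => hrow _ (hB.mem b hb), fun b hb => ?_, fun b hb b' hb' hne => ?_, ?_⟩
    · change ((w b b : K) : F) = 1
      rw [hB.one b hb]
      rfl
    · change ((w b b' : K) : F) = 0
      rw [hB.zero b hb b' hb' hne]
      rfl
    · have key : ∀ u ∈ rowSpace A, u = ∑ b ∈ B, u b • w' b := by
        intro u hu
        rw [rowSpace] at hu
        induction hu using Submodule.span_induction with
        | mem u hu =>
          obtain ⟨i, rfl⟩ := hu
          have h1 := hB.eq_sum (u := A' i) (Submodule.subset_span ⟨i, rfl⟩)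
          funext j
          have h2 := congrArg (fun x : K => (x : F)) (congrFun h1 j)
          simp only [Finset.sum_apply, Pi.smul_apply, smul_eq_mul] at h2 ⊢
          rw [AddSubmonoidClass.coe_finsetSum] at h2
          exact h2
        | zero => simp
        | add u v _ _ hu hv =>
          conv_lhs => rw [hu, hv]
          rw [← sum_add_distrib]
          exact sum_congr rfl fun b _ => by rw [Pi.add_apply, add_smul]
        | smul a u _ hu =>
          conv_lhs => rw [hu]
          rw [smul_sum]
          exact sum_congr rfl fun b _ => by rw [Pi.smul_apply, smul_assoc]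
      intro u hu hz
      rw [key u hu]
      exact sum_eq_zero fun b hb => by rw [hz b hb, zero_smul]
  have hD := hB'.dual
  have hnat : ∀ i e : Fin n, ∃ a : ℕ, (a : F) =
      if i ∈ Bᶜ then (if e = i then (1 : F) else if e ∈ B then - w' e i else 0) else 0 := by
    intro i e
    split_ifs with h1 h2 h3
    · exact ⟨1, Nat.cast_one⟩
    · apply exists_nat_of_mem_bot
      exact neg_mem (w e i).2
    · exact ⟨0, Nat.cast_zero⟩
    · exact ⟨0, Nat.cast_zero⟩
  choose A₀ hA₀ using hnat
  refine ⟨A₀, ?_⟩
  have h1 := hD.span_rows
  rw [natMat, rowSpace_of, ← h1]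
  congr 2
  funext i e
  rw [hA₀]
  by_cases hi : i ∈ Bᶜ
  · simp only [hi, if_true]
  · simp only [hi, if_false]
    rfl

end Pool.Agent.H456
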