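import Pool.Agent.H456.Mat.Basic
import Pool.Agent.H456.Pack.Fun

/-!
# From growth bounds to small cocircuits
-/

open Finset Module

namespace Pool.Agent.H456

open Pack

variable {F : Type} [Field F]

/-- `U` separates the elements of the ground set: no two columns are equal. -/
def Sep {n : ℕ} (U : Submodule F (Fin n → F)) : Prop :=
  ∀ e e' : Fin n, e ≠ e' → ∃ u ∈ U, u e ≠ u e'

/-- Members of `P` with no two equal columns have at most `g (rank)` elements. -/
def Bd (P : MClass F) (g : ℕ → ℕ) : Prop :=
  ∀ (n : ℕ) (U : Submodule F (Fin n → F)), P n U → Sep U → n ≤ g (finrank F U)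

/-- The class of the duals of the members of `P`. -/
def coClass (P : MClass F) : MClass F := fun _ U => P _ (dual U)

theorem mem_dual_span {m : ℕ} (S : Set (Fin m → F)) (x : Fin m → F) :
    x ∈ dual (Submodule.span F S) ↔ ∀ u ∈ S, ∑ i, x i * u i = 0 := by
  constructor
  · intro h u hu
    exact h u (Submodule.subset_span hu)
  · intro h u hu
    induction hu using Submodule.span_induction with
    | mem u hu => exact h u hu
    | zero => simp
    | add u v _ _ hu hv =>
      simp only [Pi.add_apply, mul_add, sum_add_distrib, hu, hv, add_zero]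
    | smul a u _ hu =>
      simp only [Pi.smul_apply, smul_eq_mul, mul_left_comm _ a, ← mul_sum, hu, mul_zero]

variable {n : ℕ} {U : Submodule F (Fin n → F)} {B : Finset (Fin n)} {w : Fin n → Fin n → F}

/-- The row patterns of a member of `P` on `J` number at most `g |J|`. -/
theorem row_pat [Fintype F] [DecidableEq F] {P : MClass F} (hP : MinorClosed P) {g : ℕ → ℕ}
    (hg : Monotone g) (hbd : Bd (coClass P) g) (hU : P n U) (h : IsBase U B w)
    (J : Finset (Bᶜ : Finset (Fin n))) :
    #(pat B (fun b (e : (Bᶜ : Finset (Fin n))) => w b e) J) ≤ g #J := by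
  classical
  set f : Fin n → (J → F) := fun b => fun j : J => w b j with hf
  obtain ⟨B₁, hB₁, hinj, himg⟩ := Finset.exists_subset_injOn_image_eq_of_surjOn (f := f) B
    (B.image f) (by rw [coe_image]; exact Set.surjOn_image _ _)
  have hpat : #(pat B (fun b (e : (Bᶜ : Finset (Fin n))) => w b e) J) = #B₁ := by
    rw [← card_image_of_injOn hinj, himg]
    rfl
  rw [hpat]
  set m := #B₁ with hm
  let ι : Fin m ↪ Fin n := (B₁.orderEmbOfFin rfl).toEmbedding
  have hιB : ∀ i, ι i ∈ B₁ := fun i => B₁.orderEmbOfFin_mem rfl i
  have hιs : ∀ b ∈ B₁, ∃ i, ι i = b := by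
    intro b hb
    have : (b : Fin n) ∈ Set.range (B₁.orderEmbOfFin rfl) := by
      rw [range_orderEmbOfFin]; exact hb
    exact this
  have hsum : ∀ c : Fin n → F, ∑ b ∈ B₁, c b = ∑ i, c (ι i) := by
    intro c
    have : B₁ = univ.map ι := by
      ext b
      simp only [mem_map, mem_univ, true_and]
      exact ⟨fun hb => hιs b hb, fun ⟨i, hi⟩ => hi ▸ hιB i⟩
    conv_lhs => rw [this]
    rw [sum_map]
  let R : Submodule F (Fin m → F) :=
    Submodule.span F (Set.range fun j : J => fun i : Fin m => w (ι i) j)
  have hR1 : finrank F R ≤ #J := by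
    have := finrank_range_le_card (R := F) (fun j : J => fun i : Fin m => w (ι i) j)
    rw [Fintype.card_coe] at this
    exact this
  have hR2 : Sep R := by
    intro e e' hne
    have h1 : f (ι e) ≠ f (ι e') := fun h2 =>
      hne (ι.injective (hinj (hιB e) (hιB e') h2))
    obtain ⟨j, hj⟩ : ∃ j, f (ι e) j ≠ f (ι e') j := by
      by_contra hall
      push Not at hall
      exact h1 (funext hall)
    exact ⟨_, Submodule.subset_span ⟨j, rfl⟩, hj⟩
  have hR3 : coClass P m R := by
    apply hP m n _ U hU
    let C : Finset (Fin n) := (B \ B₁) ∪ J.image Subtype.val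
    refine ⟨ι, C, ?_, ?_⟩
    · intro i hi
      rcases mem_union.1 hi with hi | hi
      · exact (mem_sdiff.1 hi).2 (hιB i)
      · obtain ⟨j, _, hji⟩ := mem_image.1 hi
        have := mem_compl.1 j.2
        rw [hji] at this
        exact this (hB₁ (hιB i))
    · intro v
      rw [mem_dual_span]
      constructor
      · intro hv
        have hext : ∃ c : Fin n → F, (∀ b ∉ B₁, c b = 0) ∧ ∀ i, c (ι i) = v i := by
          refine ⟨fun b => if hb : ∃ i, ι i = b then v hb.choose else 0, ?_, ?_⟩
          · intro b hb
            have : ¬ ∃ i, ι i = b := fun ⟨i, hi⟩ => hb (hi ▸ hιB i)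
            simp [this]
          · intro i
            have : ∃ i', ι i' = ι i := ⟨i, rfl⟩
            simp only [this, dif_pos]
            rw [ι.injective this.choose_spec]
        obtain ⟨c, hc0, hc⟩ := hext
        refine ⟨∑ b ∈ B, c b • w b, h.sum_mem c, ?_, ?_⟩
        · intro e he
          rcases mem_union.1 he with he | he
          · rw [h.sum_apply c (mem_sdiff.1 he).1]
            exact hc0 e (mem_sdiff.1 he).2
          · obtain ⟨j, hj, rfl⟩ := mem_image.1 he
            rw [Finset.sum_apply, ← sum_subset hB₁ (by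
              intro b _ hb
              simp [hc0 b hb])]
            rw [hsum]
            have := hv _ ⟨⟨j, hj⟩, rfl⟩
            rw [← this]
            apply sum_congr rfl
            intro i _
            simp [hc i]
        · intro i
          rw [h.sum_apply c (hB₁ (hιB i)), hc i]
      · rintro ⟨u, hu, hu0, huv⟩ x ⟨j, rfl⟩
        have h1 : u j = 0 := hu0 j (mem_union_right _ (mem_image_of_mem _ j.2))
        rw [h.apply_sum hu, ← sum_subset hB₁ (by
          intro b hb hb'
          rw [hu0 b (mem_union_left _ (mem_sdiff.2 ⟨hb, hb'⟩)), zero_mul])] at h1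
        rw [hsum] at h1
        rw [← h1]
        apply sum_congr rfl
        intro i _
        rw [huv i]
  exact (hbd m R hR3 hR2).trans (hg hR1)

/-- **Growth bounds and small cocircuits.** -/
theorem row_core [Fintype F] {P : MClass F} (hP : MinorClosed P) {g : ℕ → ℕ}
    (hg : Monotone g) (hbd : Bd (coClass P) g) {D : ℕ} (hD : g (D + 1) < 2 ^ (D + 1))
    (hU : P n U) {k : ℕ} (hk : 4 * D < k) (hcog : ∀ v ∈ U, v ≠ 0 → k + 2 ≤ #(spt v))
    (hn : finrank F U < n) :
    finrank F U ≤ 2 * g (4 * D * ((n - finrank F U) * Fintype.card F) / k) := by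
  classical
  obtain ⟨B, w, h⟩ := exists_base U
  rw [h.finrank_eq] at hn ⊢
  have hc : Fintype.card (Bᶜ : Finset (Fin n)) = n - #B := by
    rw [Fintype.card_coe, card_compl, Fintype.card_fin]
  have := packing_div B (fun b (e : (Bᶜ : Finset (Fin n))) => w b e) g hg
    (row_pat hP hg hbd hU h) D hD k hk (by
      intro b hb b' hb' hne
      have h1 := hcog (w b - w b') (U.sub_mem (h.mem b hb) (h.mem b' hb')) (by
        intro h0
        have := congrFun h0 b
        rw [Pi.sub_apply, h.one b hb, h.zero b' hb' b hb hne] at this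
        simp at this)
      have h2 : spt (w b - w b') ⊆ ({b, b'} : Finset (Fin n)) ∪
          ({e : (Bᶜ : Finset (Fin n)) | w b e ≠ w b' e} :
            Finset (Bᶜ : Finset (Fin n))).image Subtype.val := by
        intro i hi
        rw [mem_spt, Pi.sub_apply] at hi
        by_cases hiB : i ∈ B
        · apply mem_union_left
          by_contra hnot
          simp only [mem_insert, mem_singleton, not_or] at hnot
          rw [h.zero b hb i hiB hnot.1, h.zero b' hb' i hiB hnot.2, sub_zero] at hi
          exact hi rfl
        · apply mem_union_right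
          rw [mem_image]
          refine ⟨⟨i, mem_compl.2 hiB⟩, ?_, rfl⟩
          rw [mem_filter]
          exact ⟨mem_univ _, fun h0 => hi (sub_eq_zero.2 h0)⟩
      have h3 := (card_le_card h2).trans (card_union_le _ _)
      have h4 : #({b, b'} : Finset (Fin n)) ≤ 2 := card_le_two
      have h5 := card_image_le (s := ({e : (Bᶜ : Finset (Fin n)) | w b e ≠ w b' e} :
            Finset (Bᶜ : Finset (Fin n)))) (f := Subtype.val)
      omega) (by
      rw [hc]
      apply Nat.mul_pos (by omega) Fintype.card_pos)
  rwa [hc] at this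

end Pool.Agent.H456
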