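import Pool.Agent.H456.Mat.Growth

/-!
# Small cocircuits in classes that omit a cographic matroid
-/

open Finset Module

open scoped Classical

namespace Pool.Agent.H456

variable {F : Type} [Field F]

/-- Minors of duals are duals of minors. -/
theorem IsMinor.dual {m n : ℕ} {V : Submodule F (Fin m → F)} {U : Submodule F (Fin n → F)}
    (h : IsMinor V U) : IsMinor (dual V) (dual U) := by
  obtain ⟨ι, C, hιC, hV⟩ := h
  set D : Finset (Fin n) := (univ.image ι ∪ C)ᶜ with hD
  have hιD : ∀ j, ι j ∉ D := by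
    intro j hj
    rw [hD, mem_compl] at hj
    exact hj (mem_union_left _ (mem_image_of_mem _ (mem_univ _)))
  have hCD : ∀ c ∈ C, c ∉ D := by
    intro c hc hcD
    rw [hD, mem_compl] at hcD
    exact hcD (mem_union_right _ hc)
  have hcase : ∀ i, (∃ j, ι j = i) ∨ i ∈ C ∨ i ∈ D := by
    intro i
    by_cases h1 : i ∈ univ.image ι ∪ C
    · rcases mem_union.1 h1 with h2 | h2
      · obtain ⟨j, _, hj⟩ := mem_image.1 h2
        exact Or.inl ⟨j, hj⟩
      · exact Or.inr (Or.inl h2)
    · exact Or.inr (Or.inr (mem_compl.2 h1))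
  -- sums of functions supported on the image of `ι`
  have hsum : ∀ f : Fin n → F, (∀ i, i ∈ C ∨ i ∈ D → f i = 0) → ∑ i, f i = ∑ j, f (ι j) := by
    intro f hf
    rw [← sum_map univ ι f]
    symm
    apply sum_subset (subset_univ _)
    intro i _ hi
    rcases hcase i with ⟨j, hj⟩ | h2
    · exact absurd (mem_map.2 ⟨j, mem_univ _, hj⟩) hi
    · exact hf i h2
  refine ⟨ι, D, hιD, fun x => ⟨fun hx => ?_, ?_⟩⟩
  · -- the minor of the dual
    let W : Submodule F (Fin m → F) :=
      { carrier := {x | ∃ y ∈ Pool.Agent.H456.dual U, (∀ d ∈ D, y d = 0) ∧ ∀ i, y (ι i) = x i}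
        add_mem' := by
          rintro a b ⟨y, hy, hy1, hy2⟩ ⟨z, hz, hz1, hz2⟩
          refine ⟨y + z, Submodule.add_mem _ hy hz, fun d hd => ?_, fun i => ?_⟩
          · rw [Pi.add_apply, hy1 d hd, hz1 d hd, add_zero]
          · rw [Pi.add_apply, Pi.add_apply, hy2, hz2]
        zero_mem' := ⟨0, Submodule.zero_mem _, fun _ _ => rfl, fun _ => rfl⟩
        smul_mem' := by
          rintro c a ⟨y, hy, hy1, hy2⟩
          refine ⟨c • y, Submodule.smul_mem _ _ hy, fun d hd => ?_, fun i => ?_⟩
          · rw [Pi.smul_apply, hy1 d hd, smul_zero]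
          · rw [Pi.smul_apply, Pi.smul_apply, hy2] }
    change x ∈ W
    rw [← dual_dual W]
    intro v hv
    -- `v` is in `V`
    have hvV : v ∈ V := by
      let FD : Submodule F (Fin n → F) :=
        { carrier := {f | ∀ i, i ∉ D → f i = 0}
          add_mem' := fun {a b} ha hb i hi => by rw [Pi.add_apply, ha i hi, hb i hi, add_zero]
          zero_mem' := fun _ _ => rfl
          smul_mem' := fun c a ha i hi => by rw [Pi.smul_apply, ha i hi, smul_zero] }
      obtain ⟨v', hv'0, hv'ι⟩ : ∃ v' : Fin n → F, (∀ i, i ∈ C ∨ i ∈ D → v' i = 0) ∧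
          ∀ j, v' (ι j) = v j := by
        refine ⟨fun i => if hi : ∃ j, ι j = i then v hi.choose else 0, ?_, ?_⟩
        · intro i hi
          have : ¬ ∃ j, ι j = i := by
            rintro ⟨j, rfl⟩
            exact hi.elim (hιC j) (hιD j)
          simp [this]
        · intro j
          have : ∃ i', ι i' = ι j := ⟨j, rfl⟩
          simp only [this, dif_pos]
          rw [ι.injective this.choose_spec]
      have h1 : v' ∈ Pool.Agent.H456.dual (Pool.Agent.H456.dual (U ⊔ FD)) := by
        intro y hy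
        have hyU : y ∈ Pool.Agent.H456.dual U := fun u hu =>
          hy u (Submodule.mem_sup_left hu)
        have hyD : ∀ d ∈ D, y d = 0 := by
          intro d hd
          have h2 : (Pi.single d 1 : Fin n → F) ∈ FD := by
            intro i hi
            rw [Pi.single_eq_of_ne]
            rintro rfl
            exact hi hd
          have h3 := hy _ (Submodule.mem_sup_right h2)
          rw [sum_eq_single d] at h3
          · simpa using h3
          · intro i _ hi
            rw [Pi.single_eq_of_ne hi, mul_zero]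
          · intro h'
            exact absurd (mem_univ _) h'
        have h4 := hv (fun j => y (ι j)) ⟨y, hyU, hyD, fun _ => rfl⟩
        rw [hsum (fun i => v' i * y i) (fun i hi => by rw [hv'0 i hi, zero_mul])]
        rw [← h4]
        exact sum_congr rfl fun j _ => by rw [hv'ι j]
      rw [dual_dual] at h1
      obtain ⟨u, hu, f, hf, huf⟩ := Submodule.mem_sup.1 h1
      have hu' : ∀ i, i ∉ D → u i = v' i := by
        intro i hi
        rw [← huf, Pi.add_apply, hf i hi, add_zero]
      rw [hV]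
      refine ⟨u, hu, fun c hc => ?_, fun j => ?_⟩
      · rw [hu' c (hCD c hc), hv'0 c (Or.inl hc)]
      · rw [hu' _ (hιD j), hv'ι]
    have := hx v hvV
    rw [← this]
  · rintro ⟨y, hy, hyD, hyx⟩ v hv
    obtain ⟨u, hu, huC, huv⟩ := (hV v).1 hv
    have h1 := hy u hu
    rw [hsum (fun i => y i * u i) (by
      rintro i (hi | hi)
      · rw [huC i hi, mul_zero]
      · rw [hyD i hi, zero_mul])] at h1
    rw [← h1]
    exact sum_congr rfl fun j _ => by rw [hyx, huv]

theorem MinorClosed.coClass {P : MClass F} (hP : MinorClosed P) : MinorClosed (coClass P) :=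
  fun _ _ _ _ hU h => hP _ _ _ _ hU h.dual

theorem linear_of_omitsCographic [Fintype F] {P : MClass F} (hP : MinorClosed P)
    (hG : OmitsCographic P) : ∃ κ : ℕ, Bd (coClass P) fun r => κ * (r + 1) :=
  linear_of_omitsGraphic hP.coClass hG

/-- A member with largest possible cogirth relative to its size. -/
theorem small_cocircuit [Fintype F] {P : MClass F} (hP : MinorClosed P)
    (hG : OmitsCographic P) : ∃ C : ℕ, 0 < C ∧ ∀ (n : ℕ) (U : Submodule F (Fin n → F)), P n U →
      U ≠ ⊥ → ∃ v ∈ U, v ≠ 0 ∧ #(spt v) * finrank F U ≤ C * n := by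
  obtain ⟨κ, hκ⟩ := linear_of_omitsCographic hP hG
  obtain ⟨D, hD, hlt⟩ := exists_exp_gt κ 1
  set q := Fintype.card F with hq
  have hmono : Monotone fun r : ℕ => κ * (r + 1) := by
    intro r r' h
    exact Nat.mul_le_mul_left _ (by omega)
  have hDg : κ * (D + 1 + 1) < 2 ^ (D + 1) := by
    refine lt_of_le_of_lt ?_ hlt
    rcases Nat.eq_zero_or_pos κ with h0 | h0
    · simp [h0]
    · apply Nat.mul_le_mul_left
      rw [pow_one]
      exact (Nat.le_mul_of_pos_left _ h0).trans (Nat.le_succ _)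
  refine ⟨2 * κ * (4 * D * q + 1) + 4 * D + 5, by omega, fun n U hU hne => ?_⟩
  by_contra hall
  push Not at hall
  set C := 2 * κ * (4 * D * q + 1) + 4 * D + 5 with hC
  -- a vector of smallest support
  obtain ⟨v₀, hv₀, hv₀0⟩ := (Submodule.ne_bot_iff U).1 hne
  obtain ⟨γ, ⟨v, hv, hv0, hγ⟩, hmin⟩ := Nat.findX (p := fun γ => ∃ v ∈ U, v ≠ 0 ∧ #(spt v) = γ)
    ⟨_, v₀, hv₀, hv₀0, rfl⟩
  have hmin' : ∀ u ∈ U, u ≠ 0 → γ ≤ #(spt u) := by
    intro u hu hu0
    by_contra hlt'
    push Not at hlt'
    exact hmin _ hlt' ⟨u, hu, hu0, rfl⟩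
  have hCγ := hall v hv hv0
  rw [hγ] at hCγ
  have hrn : finrank F U ≤ n := finrank_le U
  have hγn : γ ≤ n := by
    rw [← hγ]
    exact (card_le_univ _).trans (by rw [Fintype.card_fin])
  have hγC : C < γ := by
    by_contra hle
    push Not at hle
    have := Nat.mul_le_mul hle hrn
    omega
  have hrn' : finrank F U < n := by
    rcases hrn.lt_or_eq with h1 | h1
    · exact h1
    · exfalso
      have h2 : U = ⊤ := by
        apply Submodule.eq_top_of_finrank_eq
        rw [finrank_fintype_fun_eq_card, Fintype.card_fin, h1]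
      have hn : 0 < n := by omega
      have h3 := hmin' (Pi.single ⟨0, hn⟩ 1) (by rw [h2]; exact Submodule.mem_top) (by
        intro h0
        have := congrFun h0 ⟨0, hn⟩
        simp at this)
      have h4 : spt (Pi.single (⟨0, hn⟩ : Fin n) (1 : F)) ⊆ {⟨0, hn⟩} := by
        intro i hi
        rw [mem_spt] at hi
        rw [mem_singleton]
        by_contra hne'
        exact hi (Pi.single_eq_of_ne hne' _)
      have h5 := card_le_card h4
      rw [card_singleton] at h5
      omega
  obtain ⟨k, hk⟩ : ∃ k, γ = k + 2 := ⟨γ - 2, by omega⟩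
  have hrow := row_core hP hmono hκ (D := D) hDg hU (k := k) (by omega)
    (fun u hu hu0 => hk ▸ hmin' u hu hu0) hrn'
  rw [← hq] at hrow
  set r := finrank F U with hr
  have h1 : k * (4 * D * ((n - r) * q) / k) ≤ 4 * D * (n * q) := by
    refine (Nat.mul_div_le _ _).trans ?_
    apply Nat.mul_le_mul_left
    apply Nat.mul_le_mul_right
    omega
  have h2 : k * r ≤ 2 * κ * (4 * D * (n * q) + k) := by
    calc k * r ≤ k * (2 * (κ * (4 * D * ((n - r) * q) / k + 1))) := Nat.mul_le_mul_left _ hrow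
      _ = 2 * κ * (k * (4 * D * ((n - r) * q) / k) + k) := by ring
      _ ≤ 2 * κ * (4 * D * (n * q) + k) := Nat.mul_le_mul_left _ (by omega)
  have h3 : 2 * κ * (4 * D * (n * q) + k) ≤ 2 * κ * (4 * D * (n * q) + n) :=
    Nat.mul_le_mul_left _ (by omega)
  have h4 : γ * r ≤ C * n := by
    calc γ * r = k * r + 2 * r := by rw [hk]; ring
      _ ≤ 2 * κ * (4 * D * (n * q) + n) + 2 * n := by omega
      _ = (2 * κ * (4 * D * q + 1) + 2) * n := by ring
      _ ≤ C * n := Nat.mul_le_mul_right _ (by omega)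
  omega

theorem omitsCographic_coClass {P : MClass F} (h : OmitsGraphic P) :
    OmitsCographic (coClass P) := by
  obtain ⟨s, n, t, h', hG⟩ := h
  exact ⟨s, n, t, h', by rw [coClass, dual_dual]; exact hG⟩

/-- If a class omits a graphic and a cographic matroid, then all nonempty members have a small
circuit or a small cocircuit. -/
theorem small_both [Fintype F] {P : MClass F} (hP : MinorClosed P) (h₁ : OmitsGraphic P)
    (h₂ : OmitsCographic P) : ∃ K : ℕ, ∀ (n : ℕ) (U : Submodule F (Fin n → F)), P n U → 0 < n →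
      ∃ v : Fin n → F, v ≠ 0 ∧ (v ∈ U ∨ v ∈ dual U) ∧ #(spt v) ≤ K := by
  obtain ⟨C₁, hC₁, h1⟩ := small_cocircuit hP h₂
  obtain ⟨C₂, hC₂, h2⟩ := small_cocircuit hP.coClass (omitsCographic_coClass h₁)
  refine ⟨2 * C₁ + 2 * C₂, fun n U hU hn => ?_⟩
  have hsum := finrank_dual U
  have key : ∀ (C : ℕ) (W : Submodule F (Fin n → F)), n ≤ 2 * finrank F W →
      (∃ v ∈ W, v ≠ 0 ∧ #(spt v) * finrank F W ≤ C * n) →
      ∃ v ∈ W, v ≠ 0 ∧ #(spt v) ≤ 2 * C := by
    rintro C W hW ⟨v, hv, hv0, hle⟩
    refine ⟨v, hv, hv0, ?_⟩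
    have h3 : #(spt v) * finrank F W ≤ 2 * C * finrank F W := by
      calc #(spt v) * finrank F W ≤ C * n := hle
        _ ≤ C * (2 * finrank F W) := Nat.mul_le_mul_left _ hW
        _ = 2 * C * finrank F W := by ring
    exact Nat.le_of_mul_le_mul_right h3 (by omega)
  by_cases hr : n ≤ 2 * finrank F U
  · have hne : U ≠ ⊥ := by
      rintro rfl
      rw [finrank_bot] at hr
      omega
    obtain ⟨v, hv, hv0, hle⟩ := key C₁ U hr (h1 n U hU hne)
    exact ⟨v, hv0, Or.inl hv, by omega⟩
  · have hr' : n ≤ 2 * finrank F (dual U) := by omega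
    have hne : dual U ≠ ⊥ := by
      intro h0
      rw [h0, finrank_bot] at hr'
      omega
    obtain ⟨v, hv, hv0, hle⟩ := key C₂ (dual U) hr' (h2 n (dual U) (by
      rw [coClass, dual_dual]; exact hU) hne)
    exact ⟨v, hv0, Or.inr hv, by omega⟩

theorem ncard_eq_spt {n : ℕ} (v : Fin n → F) : {i | v i ≠ 0}.ncard = #(spt v) := by
  have : {i | v i ≠ 0} = (spt v : Set (Fin n)) := by
    ext i
    rw [mem_coe, mem_spt]
    rfl
  rw [this, Set.ncard_coe_finset]

end Pool.Agent.H456
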